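import Mathlib

set_option autoImplicit false
set_option linter.unusedSectionVars false

/-!
# Degree filtration on functions of the cube, and the Tseitin ideal of the complete graph
-/

namespace Pool.Agent.H93.FG

open Finset

section Deg

variable {E : Type} [Fintype E] [DecidableEq E] {K : Type} [Field K]

/-- the character of a set of coordinates -/
def chi (K : Type) [Field K] {E : Type} (S : Finset E) (y : E → Bool) : K :=
  ∏ e ∈ S, if y e then (-1 : K) else 1

/-- functions of degree at most `D` -/
def Dg (E K : Type) [Field K] (D : ℕ) : Submodule K ((E → Bool) → K) :=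
  Submodule.span K {f | ∃ S : Finset E, S.card ≤ D ∧ f = chi K S}

theorem chi_mem {S : Finset E} {D : ℕ} (h : S.card ≤ D) : chi K S ∈ Dg E K D :=
  Submodule.subset_span ⟨S, h, rfl⟩

theorem sq_one (b : Bool) : (if b then (-1 : K) else 1) * (if b then (-1 : K) else 1) = 1 := by
  cases b <;> simp

theorem chi_empty : chi K (∅ : Finset E) = 1 := by
  funext y
  simp [chi]

theorem chi_mul (S T : Finset E) : chi K S * chi K T = chi K (symmDiff S T) := by
  funext y
  have h1 : chi K S y = chi K (S \ T) y * chi K (S ∩ T) y := by
    unfold chi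
    rw [← prod_union (disjoint_sdiff_inter S T), sdiff_union_inter]
  have h2 : chi K T y = chi K (T \ S) y * chi K (S ∩ T) y := by
    unfold chi
    rw [inter_comm S T, ← prod_union (disjoint_sdiff_inter T S), sdiff_union_inter]
  have h3 : chi K (S ∩ T) y * chi K (S ∩ T) y = 1 := by
    unfold chi
    rw [← prod_mul_distrib]
    exact prod_eq_one fun e _ => sq_one _
  have h4 : chi K (symmDiff S T) y = chi K (S \ T) y * chi K (T \ S) y := by
    unfold chi
    rw [← prod_union disjoint_sdiff_sdiff]
    rfl
  rw [Pi.mul_apply, h1, h2, h4]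
  calc chi K (S \ T) y * chi K (S ∩ T) y * (chi K (T \ S) y * chi K (S ∩ T) y)
      = chi K (S \ T) y * chi K (T \ S) y * (chi K (S ∩ T) y * chi K (S ∩ T) y) := by ring
    _ = _ := by rw [h3, mul_one]

theorem dg_mono {a b : ℕ} (h : a ≤ b) : Dg E K a ≤ Dg E K b := by
  apply Submodule.span_mono
  rintro f ⟨S, hS, rfl⟩
  exact ⟨S, hS.trans h, rfl⟩

theorem one_mem (D : ℕ) : (1 : (E → Bool) → K) ∈ Dg E K D := by
  rw [← chi_empty (E := E)]
  exact chi_mem (by simp)

theorem dg_mul {a b : ℕ} {f g : (E → Bool) → K} (hf : f ∈ Dg E K a) (hg : g ∈ Dg E K b) :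
    f * g ∈ Dg E K (a + b) := by
  have h1 : f * g ∈ Dg E K a * Dg E K b := Submodule.mul_mem_mul hf hg
  unfold Dg at h1
  rw [Submodule.span_mul_span] at h1
  revert h1
  apply SetLike.le_def.1
  rw [Submodule.span_le]
  rintro _ ⟨_, ⟨S, hS, rfl⟩, _, ⟨T, hT, rfl⟩, rfl⟩
  show chi K S * chi K T ∈ _
  rw [chi_mul]
  apply chi_mem
  have : (symmDiff S T).card ≤ S.card + T.card :=
    (card_le_card symmDiff_le_sup).trans (card_union_le S T)
  omega

theorem dg_const (c : K) (D : ℕ) : (fun _ => c : (E → Bool) → K) ∈ Dg E K D := by
  have h : (fun _ => c : (E → Bool) → K) = c • (1 : (E → Bool) → K) := by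
    funext y
    simp
  rw [h]
  exact Submodule.smul_mem _ _ (one_mem D)

theorem dg_pow {a : ℕ} {f : (E → Bool) → K} (hf : f ∈ Dg E K a) (n : ℕ) :
    f ^ n ∈ Dg E K (n * a) := by
  induction n with
  | zero => simpa using one_mem 0
  | succ n ih =>
    rw [pow_succ, Nat.succ_mul]
    exact dg_mul ih hf

theorem dg_prod {ι : Type} (s : Finset ι) (f : ι → (E → Bool) → K) (a : ℕ)
    (h : ∀ i ∈ s, f i ∈ Dg E K a) : (∏ i ∈ s, f i) ∈ Dg E K (s.card * a) := by
  classical
  induction s using Finset.induction_on with
  | empty => simpa using one_mem 0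
  | insert i s hi ih =>
    rw [prod_insert hi, card_insert_of_notMem hi, Nat.succ_mul, add_comm]
    exact dg_mul (h i (mem_insert_self i s)) (ih fun j hj => h j (mem_insert_of_mem hj))

/-- a function of the coordinates in `S` -/
theorem dg_junta (h2 : (2 : K) ≠ 0) (S : Finset E) (f : (E → Bool) → K)
    (hf : ∀ y y', (∀ e ∈ S, y e = y' e) → f y = f y') : f ∈ Dg E K S.card := by
  induction S using Finset.induction_on generalizing f with
  | empty =>
    have : f = fun _ => f (fun _ => false) := by
      funext y
      exact hf _ _ (by simp)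
    rw [this]
    exact dg_const _ _
  | insert e S he ih =>
    have hd : ∀ b : Bool, (fun y => f (Function.update y e b)) ∈ Dg E K S.card := by
      intro b
      apply ih
      intro y y' h
      apply hf
      intro i hi
      rcases mem_insert.1 hi with rfl | hi
      · simp
      · have : i ≠ e := fun h => he (h ▸ hi)
        simp [Function.update_of_ne this, h i hi]
    have h1 : f = (2⁻¹ : K) • ((fun y => f (Function.update y e false)) +
          (fun y => f (Function.update y e true))) +
        (2⁻¹ : K) • (chi K {e} * ((fun y => f (Function.update y e false)) -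
          (fun y => f (Function.update y e true)))) := by
      funext y
      simp only [Pi.add_apply, Pi.smul_apply, Pi.mul_apply, Pi.sub_apply, smul_eq_mul]
      have hc : chi K {e} y = if y e then (-1 : K) else 1 := by simp [chi]
      rw [hc]
      cases hy : y e with
      | true =>
        have : Function.update y e true = y := by rw [← hy]; simp
        rw [this]
        simp only [if_true]
        field_simp
        ring
      | false =>
        have : Function.update y e false = y := by rw [← hy]; simp
        rw [this]
        simp only [Bool.false_eq_true, if_false]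
        field_simp
        ring
    rw [h1, card_insert_of_notMem he]
    apply Submodule.add_mem
    · exact Submodule.smul_mem _ _ (Submodule.add_mem _ (dg_mono (Nat.le_succ _) (hd _))
        (dg_mono (Nat.le_succ _) (hd _)))
    · apply Submodule.smul_mem
      rw [add_comm]
      exact dg_mul (chi_mem (by simp)) (Submodule.sub_mem _ (hd _) (hd _))

/-- orthogonality -/
theorem sum_chi (h2 : (2 : K) ≠ 0) (S : Finset E) (hS : S.Nonempty) :
    ∑ y : E → Bool, chi K S y = 0 := by
  obtain ⟨e, he⟩ := hS
  let φ : (E → Bool) → (E → Bool) := fun y => Function.update y e (!y e)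
  have hφ : Function.Involutive φ := by
    intro y
    funext i
    by_cases hi : i = e
    · subst hi
      simp [φ]
    · simp [φ, Function.update_of_ne hi]
  have h1 : ∑ y : E → Bool, chi K S y = ∑ y : E → Bool, - chi K S y := by
    apply Fintype.sum_equiv hφ.toPerm
    intro y
    show chi K S y = - chi K S (φ y)
    unfold chi
    rw [← mul_prod_erase S _ he, ← mul_prod_erase S _ he]
    have h3 : ∏ x ∈ S.erase e, (if y x then (-1 : K) else 1) =
        ∏ x ∈ S.erase e, (if φ y x then (-1 : K) else 1) := by
      apply prod_congr rfl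
      intro i hi
      have : i ≠ e := ne_of_mem_erase hi
      simp [φ, Function.update_of_ne this]
    rw [h3]
    have h4 : φ y e = !y e := by simp [φ]
    rw [h4]
    cases y e <;> simp
  rw [sum_neg_distrib] at h1
  have h3 : (2 : K) * ∑ y : E → Bool, chi K S y = 0 := by
    rw [two_mul]
    nth_rewrite 1 [h1]
    ring
  exact (mul_eq_zero.1 h3).resolve_left h2

theorem sum_chi_chi (h2 : (2 : K) ≠ 0) (S T : Finset E) :
    ∑ y : E → Bool, chi K S y * chi K T y =
      if S = T then (2 : K) ^ Fintype.card E else 0 := by
  have h1 : ∀ y, chi K S y * chi K T y = chi K (symmDiff S T) y := fun y => by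
    rw [← chi_mul]; rfl
  simp only [h1]
  by_cases h : S = T
  · subst h
    rw [if_pos rfl, symmDiff_self]
    have : ∀ y, chi K (⊥ : Finset E) y = 1 := fun y => by simp [chi]
    rw [Finset.sum_congr rfl (fun y _ => this y)]
    simp
  · rw [if_neg h]
    apply sum_chi h2
    rw [nonempty_iff_ne_empty]
    intro h3
    exact h (symmDiff_eq_bot.1 h3)

end Deg

end Pool.Agent.H93.FG
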