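import Mathlib
import Pool.Agent.H93.FG.Ring

set_option autoImplicit false
set_option linter.unusedSectionVars false

/-!
# The Tseitin ideal of the complete graph with `q` vertices (`q` odd)
-/

namespace Pool.Agent.H93.FG

open Finset

section Tse

variable {q : ℕ} {K : Type} [Field K]

/-- edges of the complete graph -/
abbrev Ed (q : ℕ) : Type := {s : Sym2 (Fin q) // ¬ s.IsDiag}

/-- boundary of a set of vertices -/
def bd {q : ℕ} (U : Finset (Fin q)) : Finset (Ed q) :=
  univ.filter fun e => (∃ a ∈ U, a ∈ e.1) ∧ ∃ b, b ∉ U ∧ b ∈ e.1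

theorem mem_bd {U : Finset (Fin q)} {a b : Fin q} (h : ¬ (s(a, b)).IsDiag) :
    (⟨s(a, b), h⟩ : Ed q) ∈ bd U ↔ ¬ (a ∈ U ↔ b ∈ U) := by
  unfold bd
  rw [mem_filter]
  simp only [mem_univ, true_and, Sym2.mem_iff]
  constructor
  · rintro ⟨⟨c, hc, rfl | rfl⟩, ⟨d, hd, rfl | rfl⟩⟩ <;> tauto
  · intro h
    by_cases ha : a ∈ U
    · by_cases hb : b ∈ U
      · exact absurd (iff_of_true ha hb) h
      · exact ⟨⟨a, ha, Or.inl rfl⟩, ⟨b, hb, Or.inr rfl⟩⟩
    · by_cases hb : b ∈ U
      · exact ⟨⟨b, hb, Or.inr rfl⟩, ⟨a, ha, Or.inl rfl⟩⟩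
      · exact absurd (iff_of_false ha hb) h

theorem bd_symmDiff (U W : Finset (Fin q)) : symmDiff (bd U) (bd W) = bd (symmDiff U W) := by
  ext ⟨e, he⟩
  induction e using Sym2.ind with
  | _ a b =>
    rw [mem_symmDiff, mem_bd, mem_bd, mem_bd, mem_symmDiff, mem_symmDiff]
    tauto

theorem card_bd (U : Finset (Fin q)) : U.card * (q - U.card) ≤ (bd U).card := by
  have h1 : (U ×ˢ Uᶜ).card ≤ ((bd U).image Subtype.val).card := by
    refine card_le_card_of_injOn (fun p : Fin q × Fin q => s(p.1, p.2)) ?_ ?_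
    · intro p hp
      have hp' : p ∈ U ×ˢ Uᶜ := hp
      rw [mem_product, mem_compl] at hp'
      have hne : p.1 ≠ p.2 := fun h => hp'.2 (h ▸ hp'.1)
      have hd : ¬ (s(p.1, p.2)).IsDiag := by simpa using hne
      show s(p.1, p.2) ∈ ((bd U).image Subtype.val : Set (Sym2 (Fin q)))
      rw [mem_coe, mem_image]
      exact ⟨⟨s(p.1, p.2), hd⟩, (mem_bd hd).2 (by tauto), rfl⟩
    · intro p hp p' hp' h
      have hp1 : p ∈ U ×ˢ Uᶜ := hp
      have hp2 : p' ∈ U ×ˢ Uᶜ := hp'
      rw [mem_product, mem_compl] at hp1 hp2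
      have h' : s(p.1, p.2) = s(p'.1, p'.2) := h
      rw [Sym2.eq_iff] at h'
      rcases h' with h' | h'
      · exact Prod.ext h'.1 h'.2
      · exact absurd (h'.2 ▸ hp2.1) hp1.2
  rw [card_product, card_compl, Fintype.card_fin] at h1
  exact h1.trans card_image_le

theorem card_bd_le (v : Fin q) : (bd {v}).card ≤ q - 1 := by
  have h1 : (bd {v}).card ≤ (univ.erase v : Finset (Fin q)).card := by
    have h2 : ((bd {v}).image Subtype.val).card = (bd {v}).card :=
      card_image_of_injective _ Subtype.val_injective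
    rw [← h2]
    have h3 : (bd {v}).image Subtype.val ⊆ (univ.erase v).image (fun w => s(v, w)) := by
      intro e he
      rw [mem_image] at he
      obtain ⟨⟨e', he'⟩, h4, rfl⟩ := he
      induction e' using Sym2.ind with
      | _ a b =>
        rw [mem_bd] at h4
        simp only [mem_singleton] at h4
        rw [mem_image]
        by_cases ha : a = v
        · subst ha
          exact ⟨b, mem_erase.2 ⟨fun h => h4 (by tauto), mem_univ _⟩, rfl⟩
        · have hb : b = v := by tauto
          subst hb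
          exact ⟨a, mem_erase.2 ⟨ha, mem_univ _⟩, Sym2.eq_swap⟩
    exact (card_le_card h3).trans card_image_le
  rwa [card_erase_of_mem (mem_univ _), card_univ, Fintype.card_fin] at h1

theorem bd_eq_empty {U : Finset (Fin q)} (h : bd U = ∅) : U = ∅ ∨ U = univ := by
  by_contra h1
  have h3 : 0 < U.card := card_pos.2 (nonempty_iff_ne_empty.2 fun h2 => h1 (Or.inl h2))
  have h4 : U.card < q := by
    have h5 : U ⊂ univ := (subset_univ U).ssubset_of_ne fun h2 => h1 (Or.inr h2)
    simpa using card_lt_card h5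
  have h5 := card_bd U
  rw [h, card_empty] at h5
  have h6 : 0 < U.card * (q - U.card) := Nat.mul_pos h3 (by omega)
  omega

theorem bd_inj {U W : Finset (Fin q)} (hU : 2 * U.card < q) (hW : 2 * W.card < q)
    (h : bd U = bd W) : U = W := by
  have h1 : bd (symmDiff U W) = ∅ := by
    rw [← bd_symmDiff, h, symmDiff_self]; rfl
  have h2 : (symmDiff U W).card ≤ U.card + W.card :=
    (card_le_card symmDiff_le_sup).trans (card_union_le U W)
  rcases bd_eq_empty h1 with h3 | h3
  · exact symmDiff_eq_bot.1 h3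
  · rw [h3, card_univ, Fintype.card_fin] at h2
    omega

theorem neg_one_symmDiff (U W : Finset (Fin q)) :
    (-1 : K) ^ (symmDiff U W).card = (-1) ^ U.card * (-1) ^ W.card := by
  have h1 : (symmDiff U W).card = (U \ W).card + (W \ U).card :=
    card_union_of_disjoint disjoint_sdiff_sdiff
  have h2 := card_sdiff_add_card_inter U W
  have h3 := card_sdiff_add_card_inter W U
  rw [inter_comm W U] at h3
  rw [← h2, ← h3, h1, pow_add, pow_add, pow_add]
  have h4 : ((-1 : K) ^ (U ∩ W).card) * ((-1) ^ (U ∩ W).card) = 1 := by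
    rw [← pow_add, ← two_mul, pow_mul]
    simp
  calc (-1 : K) ^ (U \ W).card * (-1) ^ (W \ U).card
      = (-1) ^ (U \ W).card * (-1) ^ (W \ U).card *
        (((-1 : K) ^ (U ∩ W).card) * ((-1) ^ (U ∩ W).card)) := by rw [h4, mul_one]
    _ = _ := by ring

/-- the ideal up to degree `k` -/
def Zk (q : ℕ) (K : Type) [Field K] (k : ℕ) : Submodule K ((Ed q → Bool) → K) :=
  Submodule.span K {f | ∃ (S : Finset (Ed q)) (U : Finset (Fin q)), S.card ≤ k ∧
    (symmDiff S (bd U)).card ≤ k ∧ 2 * U.card < q ∧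
    f = chi K S - (-1 : K) ^ U.card • chi K (symmDiff S (bd U))}

theorem zk_mono {a b : ℕ} (h : a ≤ b) : Zk q K a ≤ Zk q K b := by
  apply Submodule.span_mono
  rintro f ⟨S, U, h1, h2, h3, rfl⟩
  exact ⟨S, U, h1.trans h, h2.trans h, h3, rfl⟩

theorem zk_mul {a b : ℕ} {f g : (Ed q → Bool) → K} (hf : f ∈ Zk q K a) (hg : g ∈ Dg (Ed q) K b) :
    f * g ∈ Zk q K (a + b) := by
  have h1 : f * g ∈ Zk q K a * Dg (Ed q) K b := Submodule.mul_mem_mul hf hg
  unfold Zk Dg at h1
  rw [Submodule.span_mul_span] at h1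
  revert h1
  apply SetLike.le_def.1
  rw [Submodule.span_le]
  rintro _ ⟨_, ⟨S, U, h1, h2, h3, rfl⟩, _, ⟨T, hT, rfl⟩, rfl⟩
  show (chi K S - (-1 : K) ^ U.card • chi K (symmDiff S (bd U))) * chi K T ∈ _
  rw [sub_mul, smul_mul_assoc, chi_mul, chi_mul]
  have h4 : symmDiff (symmDiff S (bd U)) T = symmDiff (symmDiff S T) (bd U) := by
    rw [symmDiff_assoc, symmDiff_comm (bd U) T, ← symmDiff_assoc]
  have hc : ∀ A : Finset (Ed q), A.card ≤ a → (symmDiff A T).card ≤ a + b := fun A hA =>
    ((card_le_card symmDiff_le_sup).trans (card_union_le A T)).trans (by omega)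
  apply Submodule.subset_span
  refine ⟨symmDiff S T, U, hc S h1, ?_, h3, by rw [h4]⟩
  rw [← h4]
  exact hc _ h2

open scoped Classical in
/-- the value of a boundary -/
noncomputable def lam (q : ℕ) (K : Type) [Field K] (S : Finset (Ed q)) : K :=
  if h : ∃ U : Finset (Fin q), 2 * U.card < q ∧ bd U = S then (-1) ^ (Classical.choose h).card else 0

theorem lam_bd {U : Finset (Fin q)} (hU : 2 * U.card < q) : lam q K (bd U) = (-1) ^ U.card := by
  unfold lam
  have h : ∃ W : Finset (Fin q), 2 * W.card < q ∧ bd W = bd U := ⟨U, hU, rfl⟩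
  rw [dif_pos h]
  have h1 := Classical.choose_spec h
  rw [bd_inj h1.1 hU h1.2]

theorem lam_not {S : Finset (Ed q)} (h : ¬ ∃ U : Finset (Fin q), 2 * U.card < q ∧ bd U = S) :
    lam q K S = 0 := by
  unfold lam
  rw [dif_neg h]

theorem num_third {q k a : ℕ} (hk : 9 * k < q * q) (ha : 2 * a < q) (h : a * (q - a) ≤ 2 * k) :
    3 * a < q := by
  by_contra h2
  obtain ⟨r, rfl⟩ : ∃ r, q = a + r := ⟨q - a, by omega⟩
  have h3 : a + r - a = r := by omega
  rw [h3] at h
  nlinarith

theorem num_sixth {q k a : ℕ} (hk : 9 * k < q * q) (ha : 2 * a < q) (h : a * (q - a) ≤ k) :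
    6 * a < q := by
  by_contra h2
  obtain ⟨r, rfl⟩ : ∃ r, q = a + r := ⟨q - a, by omega⟩
  have h3 : a + r - a = r := by omega
  rw [h3] at h
  nlinarith

theorem small_third {k : ℕ} (hk : 9 * k < q * q) {U : Finset (Fin q)} (hU : 2 * U.card < q)
    (h : (bd U).card ≤ 2 * k) : 3 * U.card < q :=
  num_third hk hU ((card_bd U).trans h)

theorem small_sixth {k : ℕ} (hk : 9 * k < q * q) {U : Finset (Fin q)} (hU : 2 * U.card < q)
    (h : (bd U).card ≤ k) : 6 * U.card < q :=
  num_sixth hk hU ((card_bd U).trans h)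

theorem lam_shift {k : ℕ} (hk : 9 * k < q * q) {S : Finset (Ed q)} {U : Finset (Fin q)}
    (hS : S.card ≤ k) (hS' : (symmDiff S (bd U)).card ≤ k) (hU : 2 * U.card < q)
    (h : ∃ W : Finset (Fin q), 2 * W.card < q ∧ bd W = S) :
    lam q K (symmDiff S (bd U)) = (-1) ^ U.card * lam q K S := by
  obtain ⟨W, hW, rfl⟩ := h
  have h1 : (bd U).card ≤ 2 * k := by
    have h2 : bd U = symmDiff (bd W) (symmDiff (bd W) (bd U)) := by
      rw [← symmDiff_assoc, symmDiff_self, bot_symmDiff]
    rw [h2]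
    exact ((card_le_card symmDiff_le_sup).trans (card_union_le _ _)).trans (by omega)
  have h2 := small_third hk hU h1
  have h3 := small_sixth hk hW hS
  have h4 : (symmDiff W U).card ≤ W.card + U.card :=
    (card_le_card symmDiff_le_sup).trans (card_union_le W U)
  rw [bd_symmDiff, lam_bd (by omega), lam_bd hW, neg_one_symmDiff, mul_comm]

open scoped Classical in
/-- the functional -/
noncomputable def Lam (q : ℕ) (K : Type) [Field K] (k : ℕ) : ((Ed q → Bool) → K) →ₗ[K] K :=
  ∑ S ∈ (univ : Finset (Finset (Ed q))).filter (fun S => S.card ≤ k),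
    lam q K S • ∑ y : Ed q → Bool, chi K S y • LinearMap.proj y

theorem Lam_chi (h2 : (2 : K) ≠ 0) (k : ℕ) {S : Finset (Ed q)} (hS : S.card ≤ k) :
    Lam q K k (chi K S) = lam q K S * (2 : K) ^ Fintype.card (Ed q) := by
  classical
  unfold Lam
  rw [LinearMap.sum_apply]
  have h1 : ∀ T : Finset (Ed q), (lam q K T • ∑ y : Ed q → Bool, chi K T y • LinearMap.proj y :
      ((Ed q → Bool) → K) →ₗ[K] K) (chi K S) =
      lam q K T * (if T = S then (2 : K) ^ Fintype.card (Ed q) else 0) := by
    intro T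
    rw [← sum_chi_chi h2]
    simp [LinearMap.smul_apply, LinearMap.sum_apply]
  rw [sum_congr rfl (fun T _ => h1 T)]
  simp only [mul_ite, mul_zero]
  rw [sum_ite_eq']
  rw [if_pos (by simpa using hS)]

/-- one is not in the ideal -/
theorem one_notMem_zk (h2 : (2 : K) ≠ 0) {k : ℕ} (hk : 9 * k < q * q) :
    (1 : (Ed q → Bool) → K) ∉ Zk q K k := by
  intro h
  have h1 : Zk q K k ≤ LinearMap.ker (Lam q K k) := by
    unfold Zk
    rw [Submodule.span_le]
    rintro _ ⟨S, U, h3, h4, h5, rfl⟩
    show _ ∈ LinearMap.ker _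
    rw [LinearMap.mem_ker, map_sub, map_smul, Lam_chi h2 k h3, Lam_chi h2 k h4]
    have hsq : (-1 : K) ^ U.card * (-1) ^ U.card = 1 := by
      rw [← pow_add, ← two_mul, pow_mul]; simp
    by_cases hb : ∃ W : Finset (Fin q), 2 * W.card < q ∧ bd W = S
    · rw [lam_shift hk h3 h4 h5 hb, smul_eq_mul]
      calc lam q K S * 2 ^ Fintype.card (Ed q) -
            (-1) ^ U.card * ((-1) ^ U.card * lam q K S * 2 ^ Fintype.card (Ed q))
          = lam q K S * 2 ^ Fintype.card (Ed q) * (1 - (-1) ^ U.card * (-1) ^ U.card) := by ring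
        _ = 0 := by rw [hsq]; ring
    · by_cases hb' : ∃ W : Finset (Fin q), 2 * W.card < q ∧ bd W = symmDiff S (bd U)
      · have h6 : symmDiff (symmDiff S (bd U)) (bd U) = S := by
          rw [symmDiff_assoc, symmDiff_self, symmDiff_bot]
        have h7 := lam_shift (K := K) hk h4 (by rw [h6]; exact h3) h5 hb'
        rw [h6] at h7
        rw [lam_not hb] at h7
        have h8 : lam q K (symmDiff S (bd U)) = 0 := by
          rcases mul_eq_zero.1 h7.symm with h9 | h9
          · rw [h9] at hsq; simp at hsq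
          · exact h9
        rw [lam_not hb, h8]
        simp
      · rw [lam_not hb, lam_not hb']
        simp
  have h3 := h1 h
  rw [LinearMap.mem_ker, ← chi_empty, Lam_chi h2 k (by simp)] at h3
  have hq : 0 < q := by
    by_contra h0
    have : q = 0 := by omega
    subst this
    omega
  have h4 : bd (∅ : Finset (Fin q)) = ∅ := by
    ext e
    simp [bd]
  rw [← h4, lam_bd (by simpa using hq)] at h3
  simp [h2] at h3

/-- the number of edges at `v` -/
def nb {q : ℕ} (v : Fin q) (y : Ed q → Bool) : ℕ :=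
  (univ.filter fun e : Ed q => v ∈ e.1 ∧ y e = true).card

open scoped Classical in
/-- the indicator of an even number of edges at `v` -/
noncomputable def viol (K : Type) [Field K] {q : ℕ} (v : Fin q) (y : Ed q → Bool) : K :=
  if Even (nb v y) then 1 else 0

theorem mem_bd_single {v : Fin q} (e : Ed q) : e ∈ bd {v} ↔ v ∈ e.1 := by
  obtain ⟨e, he⟩ := e
  induction e using Sym2.ind with
  | _ a b =>
    rw [mem_bd]
    simp only [mem_singleton, Sym2.mem_iff]
    have : a ≠ b := by simpa using he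
    constructor
    · intro h
      by_cases ha : a = v
      · exact Or.inl ha.symm
      · right
        by_contra hb
        exact h (iff_of_false ha fun h => hb h.symm)
    · rintro (rfl | rfl) h
      · exact this (h.1 rfl).symm
      · exact this (h.2 rfl)

theorem chi_bd_single (v : Fin q) (y : Ed q → Bool) :
    chi K (bd {v}) y = (-1) ^ nb v y := by
  unfold chi nb
  rw [prod_ite, prod_const, prod_const_one, mul_one]
  congr 2
  ext e
  simp [mem_bd_single]

theorem viol_mem (h2 : (2 : K) ≠ 0) (hq : 2 < q) (v : Fin q) : viol K v ∈ Zk q K (q - 1) := by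
  have h1 : viol K v = (2⁻¹ : K) • (chi K ∅ -
      (-1 : K) ^ ({v} : Finset (Fin q)).card • chi K (symmDiff ∅ (bd {v}))) := by
    funext y
    have h3 : symmDiff (∅ : Finset (Ed q)) (bd {v}) = bd {v} := bot_symmDiff _
    rw [h3]
    simp only [Pi.smul_apply, Pi.sub_apply, smul_eq_mul, card_singleton, pow_one]
    rw [chi_bd_single, chi_empty]
    unfold viol
    split_ifs with h
    · rw [h.neg_one_pow]
      simp only [Pi.one_apply]
      field_simp
      ring
    · rw [(Nat.not_even_iff_odd.1 h).neg_one_pow]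
      simp
  rw [h1]
  apply Submodule.smul_mem
  apply Submodule.subset_span
  refine ⟨∅, {v}, by simp, ?_, by simpa using hq, rfl⟩
  have h3 : symmDiff (∅ : Finset (Ed q)) (bd {v}) = bd {v} := bot_symmDiff _
  rw [h3]
  exact card_bd_le v

end Tse

end Pool.Agent.H93.FG
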