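import Mathlib
import Pool.Agent.H93.FG.Tse

set_option autoImplicit false
set_option linter.unusedSectionVars false

/-!
# Functions given by self certifying reads of groups

`rd y` is the set of the groups (vertices of the complete graph) that a process reads at `y`. The only
property used: if `y'` agrees with `y` on the edges at the groups in `rd y`, then `rd y' = rd y`.
-/

namespace Pool.Agent.H93.FG

open Finset

section Loc

variable {q : ℕ} {K : Type} [Field K]

theorem nb_congr {v : Fin q} {y y' : Ed q → Bool} (h : ∀ e : Ed q, v ∈ e.1 → y e = y' e) :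
    nb v y = nb v y' := by
  unfold nb
  congr 1
  apply filter_congr
  intro e _
  constructor
  · rintro ⟨a, b⟩
    exact ⟨a, by rw [← h e a]; exact b⟩
  · rintro ⟨a, b⟩
    exact ⟨a, by rw [h e a]; exact b⟩

/-- agreement on the edges at the groups in `R` -/
def Agr (R : Finset (Fin q)) (y y' : Ed q → Bool) : Prop :=
  ∀ e : Ed q, (∃ v ∈ R, v ∈ e.1) → y e = y' e

theorem Agr.symm {R : Finset (Fin q)} {y y' : Ed q → Bool} (h : Agr R y y') : Agr R y' y :=
  fun e he => (h e he).symm

theorem Agr.mono {R R' : Finset (Fin q)} {y y' : Ed q → Bool} (h : Agr R y y') (hs : R' ⊆ R) :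
    Agr R' y y' := fun e he => h e (by
  obtain ⟨v, hv, h1⟩ := he
  exact ⟨v, hs hv, h1⟩)

/-- self certifying reads of at most `r` groups -/
structure Rd (q : ℕ) (r : ℕ) (rd : (Ed q → Bool) → Finset (Fin q)) : Prop where
  /-- the number of groups -/
  card : ∀ y, (rd y).card ≤ r
  /-- certificate -/
  loc : ∀ y y', Agr (rd y) y y' → rd y' = rd y

theorem Rd.union {r r' : ℕ} {rd rd' : (Ed q → Bool) → Finset (Fin q)} (h : Rd q r rd)
    (h' : Rd q r' rd') : Rd q (r + r') (fun y => rd y ∪ rd' y) := by
  constructor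
  · intro y
    exact (card_union_le _ _).trans (Nat.add_le_add (h.card y) (h'.card y))
  · intro y y' hy
    rw [h.loc y y' (hy.mono subset_union_left), h'.loc y y' (hy.mono subset_union_right)]

theorem Rd.biUnion {ι : Type} [Fintype ι] {r : ℕ} {rd : ι → (Ed q → Bool) → Finset (Fin q)}
    (h : ∀ i, Rd q r (rd i)) :
    Rd q (Fintype.card ι * r) (fun y => univ.biUnion fun i => rd i y) := by
  constructor
  · intro y
    refine card_biUnion_le.trans ((sum_le_sum fun i _ => (h i).card y).trans ?_)
    simp
  · intro y y' hy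
    have : ∀ i, rd i y' = rd i y := fun i =>
      (h i).loc y y' (hy.mono (subset_biUnion_of_mem (fun i => rd i y) (mem_univ i)))
    simp [this]

/-- the edges at the groups in `R` -/
def eds (R : Finset (Fin q)) : Finset (Ed q) := univ.filter fun e => ∃ v ∈ R, v ∈ e.1

theorem card_eds (R : Finset (Fin q)) : (eds R).card ≤ R.card * (q - 1) := by
  have h1 : eds R ⊆ R.biUnion fun v => bd {v} := by
    intro e he
    unfold eds at he
    rw [mem_filter] at he
    obtain ⟨v, hv, h⟩ := he.2
    exact mem_biUnion.2 ⟨v, hv, (mem_bd_single e).2 h⟩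
  refine (card_le_card h1).trans (card_biUnion_le.trans ?_)
  refine (sum_le_sum fun v _ => card_bd_le v).trans ?_
  simp

/-- the visible part of an assignment -/
def vis (R : Finset (Fin q)) (y : Ed q → Bool) : Ed q → Bool :=
  fun e => decide (∃ v ∈ R, v ∈ e.1) && y e

theorem vis_eq_iff {R : Finset (Fin q)} {y y' : Ed q → Bool} : vis R y = vis R y' ↔ Agr R y y' := by
  constructor
  · intro h e he
    have h1 := congrFun h e
    unfold vis at h1
    simpa [he] using h1
  · intro h
    funext e
    unfold vis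
    by_cases he : ∃ v ∈ R, v ∈ e.1
    · simp [he, h e he]
    · simp [he]

open scoped Classical in
/-- indicator of a class -/
noncomputable def ind (K : Type) [Field K] (rd : (Ed q → Bool) → Finset (Fin q))
    (R : Finset (Fin q)) (z : Ed q → Bool) (y : Ed q → Bool) : K :=
  if rd y = R ∧ vis R y = z then 1 else 0

theorem ind_mem (h2 : (2 : K) ≠ 0) {r : ℕ} {rd : (Ed q → Bool) → Finset (Fin q)} (h : Rd q r rd)
    (R : Finset (Fin q)) (z : Ed q → Bool) : ind K rd R z ∈ Dg (Ed q) K (r * (q - 1)) := by
  by_cases hR : R.card ≤ r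
  · have h1 : ind K rd R z ∈ Dg (Ed q) K (eds R).card := by
      apply dg_junta h2
      intro y y' hy
      have ha : Agr R y y' := fun e he => hy e (by
        unfold eds
        exact mem_filter.2 ⟨mem_univ _, he⟩)
      have h3 : (rd y = R ∧ vis R y = z) ↔ (rd y' = R ∧ vis R y' = z) := by
        rw [vis_eq_iff.2 ha]
        constructor
        · rintro ⟨h4, h5⟩
          refine ⟨?_, h5⟩
          rw [h.loc y y' (by rw [h4]; exact ha), h4]
        · rintro ⟨h4, h5⟩
          refine ⟨?_, h5⟩
          rw [h.loc y' y (by rw [h4]; exact ha.symm), h4]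
      unfold ind
      simp only [h3]
    exact dg_mono ((card_eds R).trans (Nat.mul_le_mul_right _ hR)) h1
  · have : ind K rd R z = 0 := by
      funext y
      unfold ind
      rw [if_neg]
      · rfl
      · rintro ⟨h4, _⟩
        exact hR (h4 ▸ h.card y)
    rw [this]
    exact Submodule.zero_mem _

theorem sum_ind (rd : (Ed q → Bool) → Finset (Fin q)) (f : (Ed q → Bool) → K) :
    f = ∑ p : Finset (Fin q) × (Ed q → Bool), f * ind K rd p.1 p.2 := by
  classical
  funext y
  rw [Finset.sum_apply]
  rw [Finset.sum_eq_single (rd y, vis (rd y) y)]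
  · simp [ind]
  · rintro ⟨R, z⟩ _ hne
    have : ¬ (rd y = R ∧ vis R y = z) := by
      rintro ⟨rfl, rfl⟩
      exact hne rfl
    simp [ind, this]
  · intro h
    exact absurd (mem_univ _) h

/-- a function determined by self certifying reads has low degree -/
theorem loc_deg (h2 : (2 : K) ≠ 0) {r : ℕ} {rd : (Ed q → Bool) → Finset (Fin q)} (h : Rd q r rd)
    (f : (Ed q → Bool) → K) (hf : ∀ y y', Agr (rd y) y y' → f y' = f y) :
    f ∈ Dg (Ed q) K (r * (q - 1)) := by
  rw [sum_ind rd f]
  apply Submodule.sum_mem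
  rintro ⟨R, z⟩ _
  by_cases hx : ∃ y0, rd y0 = R ∧ vis R y0 = z
  · obtain ⟨y0, h3, h4⟩ := hx
    have h5 : f * ind K rd R z = f y0 • ind K rd R z := by
      funext y
      simp only [Pi.mul_apply, Pi.smul_apply, smul_eq_mul]
      unfold ind
      split_ifs with h6
      · rw [hf y0 y (by
          rw [h3]
          exact vis_eq_iff.1 (h4.trans h6.2.symm))]
      · simp
    rw [h5]
    exact Submodule.smul_mem _ _ (ind_mem h2 h R z)
  · have h5 : f * ind K rd R z = 0 := by
      funext y
      simp only [Pi.mul_apply, Pi.zero_apply]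
      unfold ind
      rw [if_neg (fun h6 => hx ⟨y, h6⟩), mul_zero]
    rw [h5]
    exact Submodule.zero_mem _

/-- **leaf lemma** -/
theorem leaf (h2 : (2 : K) ≠ 0) (hq : 2 < q) {r k : ℕ} {rd : (Ed q → Bool) → Finset (Fin q)}
    (h : Rd q r rd) (f : (Ed q → Bool) → K) (hk : f ∈ Dg (Ed q) K k)
    (hf : ∀ y, (∀ v ∈ rd y, ¬ Even (nb v y)) → f y = 0) : f ∈ Zk q K (k + (r + 1) * (q - 1)) := by
  rw [sum_ind rd f]
  apply Submodule.sum_mem
  rintro ⟨R, z⟩ _
  by_cases hx : ∃ y0, (rd y0 = R ∧ vis R y0 = z) ∧
    ∃ v ∈ R, Even (nb v y0)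
  · obtain ⟨y0, ⟨h3, h4⟩, v, hv, h5⟩ := hx
    have h6 : f * ind K rd R z = viol K v * (f * ind K rd R z) := by
      funext y
      simp only [Pi.mul_apply]
      unfold ind
      split_ifs with h7
      · have h8 : Agr R y0 y := vis_eq_iff.1 (h4.trans h7.2.symm)
        have h9 : nb v y = nb v y0 := nb_congr fun e he => (h8 e ⟨v, hv, he⟩).symm
        unfold viol
        rw [h9, if_pos h5]
        ring
      · simp
    rw [h6]
    have h7 : f * ind K rd R z ∈ Dg (Ed q) K (k + r * (q - 1)) := dg_mul hk (ind_mem h2 h R z)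
    have h8 := zk_mul (viol_mem (K := K) h2 hq v) h7
    apply zk_mono _ h8
    rw [Nat.add_mul, one_mul]
    omega
  · have h5 : f * ind K rd R z = 0 := by
      funext y
      simp only [Pi.mul_apply, Pi.zero_apply]
      unfold ind
      split_ifs with h6
      · rw [hf y, zero_mul]
        intro v hv he
        exact hx ⟨y, h6, v, by rw [← h6.1]; exact hv, he⟩
      · simp
    rw [h5]
    exact Submodule.zero_mem _

end Loc

end Pool.Agent.H93.FG
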