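import Mathlib
import Pool.Agent.H93.FG.Loc
import Pool.Agent.H67.FG.Wld

set_option autoImplicit false
set_option linter.unusedSectionVars false

/-!
# The structure `Alg` for the Tseitin ideal of the complete graph
-/

namespace Pool.Agent.H93.FG

open Finset

section Zal

variable {q : ℕ} {K : Type} [Field K]

open scoped Classical in
/-- the class of `S` -/
noncomputable def cls (k : ℕ) (S : Finset (Ed q)) : Finset (Finset (Ed q)) :=
  univ.filter fun T => T.card ≤ k ∧ ∃ U : Finset (Fin q), 2 * U.card < q ∧ T = symmDiff S (bd U)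

theorem mem_cls {k : ℕ} {S T : Finset (Ed q)} :
    T ∈ cls k S ↔ T.card ≤ k ∧ ∃ U : Finset (Fin q), 2 * U.card < q ∧ T = symmDiff S (bd U) := by
  unfold cls
  simp

theorem bd_empty : bd (∅ : Finset (Fin q)) = ∅ := by
  ext e
  simp [bd]

theorem num_two {q k a : ℕ} (hk : 9 * k < q * q) (ha : 3 * a < 2 * q) (h : a * (q - a) ≤ 2 * k) :
    3 * a < q := by
  by_contra h2
  obtain ⟨r, rfl⟩ : ∃ r, q = a + r := ⟨q - a, by omega⟩
  have h3 : a + r - a = r := by omega
  rw [h3] at h
  nlinarith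

theorem card_of_symmDiff {k : ℕ} {S T : Finset (Ed q)} {U : Finset (Fin q)} (hS : S.card ≤ k)
    (hT : T.card ≤ k) (h : T = symmDiff S (bd U)) : (bd U).card ≤ 2 * k := by
  have h2 : bd U = symmDiff S T := by
    rw [h, ← symmDiff_assoc, symmDiff_self, bot_symmDiff]
  rw [h2]
  exact ((card_le_card symmDiff_le_sup).trans (card_union_le _ _)).trans (by omega)

/-- transitivity with signs -/
theorem shift_two {k : ℕ} (hk : 9 * k < q * q) {S T R : Finset (Ed q)} {U W : Finset (Fin q)}
    (hS : S.card ≤ k) (hT : T.card ≤ k) (hR : R.card ≤ k) (hU : 2 * U.card < q)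
    (hW : 2 * W.card < q) (h1 : T = symmDiff S (bd U)) (h2 : R = symmDiff T (bd W)) :
    2 * (symmDiff U W).card < q ∧ R = symmDiff S (bd (symmDiff U W)) := by
  have h3 := small_third hk hU (card_of_symmDiff hS hT h1)
  have h4 := small_third hk hW (card_of_symmDiff hT hR h2)
  have h5 : R = symmDiff S (bd (symmDiff U W)) := by
    rw [h2, h1, symmDiff_assoc, bd_symmDiff]
  have h6 : (symmDiff U W).card ≤ U.card + W.card :=
    (card_le_card symmDiff_le_sup).trans (card_union_le U W)
  have h7 := num_two hk (a := (symmDiff U W).card) (by omega)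
    ((card_bd _).trans (card_of_symmDiff hS hR h5))
  exact ⟨by omega, h5⟩

theorem cls_eq {k : ℕ} (hk : 9 * k < q * q) {S T : Finset (Ed q)} {U : Finset (Fin q)}
    (hS : S.card ≤ k) (hT : T.card ≤ k) (hU : 2 * U.card < q) (h1 : T = symmDiff S (bd U)) :
    cls k S = cls k T := by
  have h1' : S = symmDiff T (bd U) := by
    rw [h1, symmDiff_assoc, symmDiff_self, symmDiff_bot]
  ext R
  rw [mem_cls, mem_cls]
  constructor
  · rintro ⟨hR, W, hW, h2⟩
    obtain ⟨h3, h4⟩ := shift_two hk hT hS hR hU hW h1' h2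
    exact ⟨hR, _, h3, h4⟩
  · rintro ⟨hR, W, hW, h2⟩
    obtain ⟨h3, h4⟩ := shift_two hk hS hT hR hU hW h1 h2
    exact ⟨hR, _, h3, h4⟩

theorem self_mem_cls {k : ℕ} (hq : 0 < q) {S : Finset (Ed q)} (hS : S.card ≤ k) : S ∈ cls k S := by
  rw [mem_cls]
  refine ⟨hS, ∅, by simpa using hq, ?_⟩
  rw [bd_empty]
  exact (symmDiff_bot S).symm

open scoped Classical in
/-- a member with the fewest edges -/
noncomputable def rep {q : ℕ} (C : Finset (Finset (Ed q))) : Finset (Ed q) :=
  if h : C.Nonempty then Classical.choose (exists_min_image C card h) else ∅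

theorem rep_spec {C : Finset (Finset (Ed q))} (h : C.Nonempty) :
    rep C ∈ C ∧ ∀ T ∈ C, (rep C).card ≤ T.card := by
  unfold rep
  rw [dif_pos h]
  exact Classical.choose_spec (exists_min_image C card h)

/-- Fourier coefficient (times a constant) -/
noncomputable def cf (S : Finset (Ed q)) : ((Ed q → Bool) → K) →ₗ[K] K :=
  ∑ y : Ed q → Bool, chi K S y • LinearMap.proj y

theorem cf_chi (h2 : (2 : K) ≠ 0) (S T : Finset (Ed q)) :
    cf S (chi K T) = if S = T then (2 : K) ^ Fintype.card (Ed q) else 0 := by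
  rw [← sum_chi_chi h2]
  unfold cf
  rw [LinearMap.sum_apply]
  apply sum_congr rfl
  intro y _
  simp [LinearMap.smul_apply]

open scoped Classical in
/-- the reduction to representatives -/
noncomputable def Rk (q : ℕ) (K : Type) [Field K] (k : ℕ) :
    ((Ed q → Bool) → K) →ₗ[K] ((Ed q → Bool) → K) :=
  ∑ S ∈ (univ : Finset (Finset (Ed q))).filter (fun S => S.card ≤ k),
    LinearMap.smulRight (cf S)
      ((lam q K (symmDiff S (rep (cls k S))) * ((2 : K) ^ Fintype.card (Ed q))⁻¹) •
        chi K (rep (cls k S)))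

theorem Rk_chi (h2 : (2 : K) ≠ 0) {k : ℕ} {S : Finset (Ed q)} (hS : S.card ≤ k) :
    Rk q K k (chi K S) = lam q K (symmDiff S (rep (cls k S))) • chi K (rep (cls k S)) := by
  classical
  unfold Rk
  rw [LinearMap.sum_apply]
  rw [Finset.sum_eq_single S]
  · rw [LinearMap.smulRight_apply, cf_chi h2, if_pos rfl, smul_smul]
    congr 1
    have h3 : (2 : K) ^ Fintype.card (Ed q) ≠ 0 := pow_ne_zero _ h2
    field_simp
  · intro T _ hT
    rw [LinearMap.smulRight_apply, cf_chi h2, if_neg hT, zero_smul]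
  · intro h
    exact absurd (mem_filter.2 ⟨mem_univ S, hS⟩) h

theorem Rk_zero (h2 : (2 : K) ≠ 0) {k : ℕ} (hk : 9 * k < q * q) (hq : 0 < q)
    {f : (Ed q → Bool) → K} (hf : f ∈ Zk q K k) : Rk q K k f = 0 := by
  have h1 : Zk q K k ≤ LinearMap.ker (Rk q K k) := by
    unfold Zk
    rw [Submodule.span_le]
    rintro _ ⟨S, U, h3, h4, h5, rfl⟩
    show _ ∈ LinearMap.ker _
    rw [LinearMap.mem_ker, map_sub, map_smul, Rk_chi h2 h3, Rk_chi h2 h4]
    have hc := cls_eq hk h3 h4 h5 rfl
    rw [← hc]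
    have hne : (cls k S).Nonempty := ⟨S, self_mem_cls hq h3⟩
    obtain ⟨h6, _⟩ := rep_spec hne
    set r := rep (cls k S) with hr
    rw [mem_cls] at h6
    obtain ⟨h7, W, h8, h9⟩ := h6
    -- `r = S + bd W`
    have h10 : symmDiff S r = bd W := by
      rw [h9, ← symmDiff_assoc, symmDiff_self, bot_symmDiff]
    have h11 : S = symmDiff (symmDiff S (bd U)) (bd U) := by
      rw [symmDiff_assoc, symmDiff_self, symmDiff_bot]
    obtain ⟨h12, h13⟩ := shift_two hk h4 h3 h7 h5 h8 h11 h9
    have h14 : symmDiff (symmDiff S (bd U)) r = bd (symmDiff U W) := by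
      rw [h13, ← symmDiff_assoc, symmDiff_self, bot_symmDiff]
    rw [h10, h14, lam_bd h8, lam_bd h12, neg_one_symmDiff, smul_smul, ← mul_assoc]
    have hsq : (-1 : K) ^ U.card * (-1) ^ U.card = 1 := by
      rw [← pow_add, ← two_mul, pow_mul]; simp
    rw [hsq, one_mul, sub_self]
  exact LinearMap.mem_ker.1 (h1 hf)

theorem zk_of_dg (h2 : (2 : K) ≠ 0) {k b : ℕ} (hk : 9 * k < q * q) (hb : b ≤ k)
    {f : (Ed q → Bool) → K} (hf : f ∈ Zk q K k) (hd : f ∈ Dg (Ed q) K b) : f ∈ Zk q K b := by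
  have hq : 0 < q := by
    by_contra h0
    have : q = 0 := by omega
    subst this
    omega
  have h1 : ∀ g ∈ Dg (Ed q) K b, g - Rk q K k g ∈ Zk q K b := by
    intro g hg
    unfold Dg at hg
    induction hg using Submodule.span_induction with
    | mem g hg =>
      obtain ⟨S, hS, rfl⟩ := hg
      have hS' : S.card ≤ k := hS.trans hb
      rw [Rk_chi h2 hS']
      have hne : (cls k S).Nonempty := ⟨S, self_mem_cls hq hS'⟩
      obtain ⟨h6, h7⟩ := rep_spec hne
      have h8 := h7 S (self_mem_cls hq hS')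
      rw [mem_cls] at h6
      obtain ⟨h9, W, h10, h11⟩ := h6
      have h12 : symmDiff S (rep (cls k S)) = bd W := by
        rw [h11, ← symmDiff_assoc, symmDiff_self, bot_symmDiff]
      rw [h12, lam_bd h10]
      apply Submodule.subset_span
      refine ⟨S, W, hS, ?_, h10, by rw [← h11]⟩
      rw [← h11]
      exact h8.trans hS
    | zero => simp
    | add g g' _ _ h h' =>
      rw [map_add]
      have : g + g' - (Rk q K k g + Rk q K k g') = (g - Rk q K k g) + (g' - Rk q K k g') := by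
        ring
      rw [this]
      exact Submodule.add_mem _ h h'
    | smul c g _ h =>
      rw [map_smul, ← smul_sub]
      exact Submodule.smul_mem _ _ h
  have h3 := h1 f hd
  rw [Rk_zero h2 hk hq hf, sub_zero] at h3
  exact h3

/-- the algebra of the Tseitin contradiction on the complete graph -/
noncomputable def alg (q : ℕ) (k : Type) [Field k] (h2 : (2 : k) ≠ 0) (K : ℕ)
    (hK : 9 * K < q ^ 2) : Pool.Agent.H67.FG.Alg k (Ed q → Bool) where
  Deg := Dg (Ed q) k
  Z := Zk q k K
  K := K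
  one := one_mem
  mono := dg_mono
  mul := dg_mul
  zmul := by
    intro a b f h hab hf hh hz
    have h1 : h ∈ Zk q k b := zk_of_dg h2 (by rw [← sq]; exact hK) (by omega) hz hh
    rw [mul_comm]
    exact zk_mono (by omega) (zk_mul h1 hf)
  ne := one_notMem_zk h2 (by rw [← sq]; exact hK)

theorem ind_viol (k : Type) [Field k] (v : Fin q) :
    Pool.Agent.H67.FG.ind (fun y : Ed q → Bool => Even (nb v y)) = viol k v := by
  funext y
  unfold Pool.Agent.H67.FG.ind viol
  by_cases h : Even (nb v y)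
  · rw [if_pos h, if_pos h]
  · rw [if_neg h, if_neg h]

/-- violations are in `Z` -/
theorem viol_mem_alg (k : Type) [Field k] (h2 : (2 : k) ≠ 0) (K : ℕ) (hq : 2 < q)
    (hK : 9 * K < q ^ 2) (hqK : q - 1 ≤ K) (v : Fin q) :
    Pool.Agent.H67.FG.ind (fun y : Ed q → Bool => Even (nb v y)) ∈ (alg q k h2 K hK).Z := by
  rw [ind_viol]
  exact zk_mono hqK (viol_mem h2 hq v)

/-- violations have degree `q - 1` -/
theorem viol_mem_deg (k : Type) [Field k] (h2 : (2 : k) ≠ 0) (K : ℕ)
    (hK : 9 * K < q ^ 2) (v : Fin q) :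
    Pool.Agent.H67.FG.ind (fun y : Ed q → Bool => Even (nb v y)) ∈
      (alg q k h2 K hK).Deg (q - 1) := by
  rw [ind_viol]
  refine dg_mono (card_bd_le v) (dg_junta h2 (bd {v}) _ ?_)
  intro y y' hy
  unfold viol
  rw [nb_congr fun e he => hy e ((mem_bd_single e).2 he)]

/-- a function of the edges in `S` -/
theorem junta_alg (k : Type) [Field k] (h2 : (2 : k) ≠ 0) (K : ℕ)
    (hK : 9 * K < q ^ 2) (S : Finset (Ed q)) (f : (Ed q → Bool) → k)
    (hf : ∀ y y', (∀ e ∈ S, y e = y' e) → f y = f y') : f ∈ (alg q k h2 K hK).Deg S.card :=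
  dg_junta h2 S f hf

end Zal

end Pool.Agent.H93.FG
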