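import Pool.Agent.H67.FG.Out
import Pool.Agent.H67.FG.Gue
import Pool.Agent.H6.FG.Sub
import Pool.Agent.H30.FG.DegP

/-!
# FG by levels: `few_outer`, `few_deg`
-/

set_option autoImplicit false

namespace Pool.Agent.H93.FG2

open Finset Pool.Agent.H3.Ac Pool.Agent.H67.FG
open Pool.Agent.H3.Frg hiding ind

variable {V : Type}

theorem isMod_of_mem_top : ∀ {A C : Fo V}, C ∈ A.outer → C.IsMod
  | .var _, _, h => absurd h (Set.notMem_empty _)
  | .neg A, _, h => isMod_of_mem_top (A := A) h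
  | .imp A B, _, h => h.elim (isMod_of_mem_top (A := A)) (isMod_of_mem_top (A := B))
  | .mod a n f, _, h => ⟨a, n, f, h⟩

theorem mem_subs_of_mem_top : ∀ {A C : Fo V}, C ∈ A.outer → C ∈ A.subs
  | .var _, _, h => absurd h (Set.notMem_empty _)
  | .neg A, _, h => by
      rw [Fo.subs]
      exact List.mem_cons_of_mem _ (mem_subs_of_mem_top (A := A) h)
  | .imp A B, _, h => by
      rw [Fo.subs]
      rcases h with h | h
      · exact List.mem_cons_of_mem _ (List.mem_append_left _ (mem_subs_of_mem_top (A := A) h))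
      · exact List.mem_cons_of_mem _ (List.mem_append_right _ (mem_subs_of_mem_top (A := B) h))
  | .mod a n f, C, h => by
      have : C = .mod a n f := h
      rw [this]
      exact self_mem_subs _

theorem top_sub_gates {A : Fo V} : A.outer ⊆ A.gates := fun _ h =>
  ⟨mem_subs_of_mem_top h, isMod_of_mem_top h⟩

theorem top_finite (A : Fo V) : (A.outer).Finite := (gates_finite A).subset top_sub_gates

/-- `tr g A` depends only on the outermost gates -/
theorem tr_top {g h : Fo V → Bool} : ∀ {A : Fo V}, (∀ C ∈ A.outer, g C = h C) → tr g A = tr h A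
  | .var v, _ => by rw [tr, tr]
  | .neg A, H => by rw [tr, tr, tr_top (A := A) H]
  | .imp A B, H => by
      rw [tr, tr, tr_top (A := A) fun C hC => H C (Or.inl hC), tr_top (A := B) fun C hC => H C (Or.inr hC)]
  | .mod a n f, H => by rw [tr, tr, H _ rfl]

theorem few_succ {t : ℕ} : ∀ {j : ℕ} {A : Fo V}, Few t j A → Few t (j + 1) A
  | 0, A, h => ⟨∅, Set.finite_empty, by simp, by
      have h' : A.outer = ∅ := h
      rw [h'], fun a n f hf => absurd hf (Set.notMem_empty _)⟩
  | j + 1, A, h => by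
      obtain ⟨Γ, h0, h1, h2, h3⟩ := h
      exact ⟨Γ, h0, h1, h2, fun a n f hf i => (h3 a n f hf i).imp id fun h4 => few_succ h4⟩

/-- subformulas of a formula whose outermost gates are in `Γ` -/
theorem sub_top {P : Fo V → Prop} {Γ : Set (Fo V)}
    (hP : ∀ A, P A → ∀ B ∈ A.subs, P B)
    (hΓ : ∀ a n f, Fo.mod a n f ∈ Γ → ∀ i, (f i).outer ⊆ Γ ∨ P (f i)) :
    ∀ {A : Fo V}, A.outer ⊆ Γ → ∀ B ∈ A.subs, B.outer ⊆ Γ ∨ P B
  | .var v, h, B, hB => by
      rw [Fo.subs, List.mem_singleton] at hB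
      subst hB
      exact Or.inl h
  | .neg A, h, B, hB => by
      rw [Fo.subs, List.mem_cons] at hB
      rcases hB with rfl | hB
      · exact Or.inl h
      · exact sub_top hP hΓ (A := A) h B hB
  | .imp A A', h, B, hB => by
      rw [Fo.subs, List.mem_cons, List.mem_append] at hB
      rcases hB with rfl | hB | hB
      · exact Or.inl h
      · exact sub_top hP hΓ (A := A) (Set.subset_union_left.trans h) B hB
      · exact sub_top hP hΓ (A := A') (Set.subset_union_right.trans h) B hB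
  | .mod a n f, h, B, hB => by
      rcases H6.FG.mem_subs_mod.1 hB with rfl | ⟨i, hB⟩
      · exact Or.inl h
      · rcases hΓ a n f (h rfl) i with h1 | h1
        · exact sub_top hP hΓ (A := f i) h1 B hB
        · exact Or.inr (hP _ h1 B hB)

theorem few_subs {t : ℕ} : ∀ {j : ℕ} {A : Fo V}, Few t j A → ∀ B ∈ A.subs, Few t j B
  | 0, A, h, B, hB => by
      have h' : A.outer ⊆ (∅ : Set (Fo V)) := by
        have h0 : A.outer = ∅ := h
        rw [h0]
      rcases sub_top (P := fun _ => False) (Γ := ∅) (fun _ h => h.elim) (fun a n f hf => hf.elim) h' B hB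
        with h1 | h1
      · exact Set.subset_empty_iff.1 h1
      · exact h1.elim
  | j + 1, A, h, B, hB => by
      obtain ⟨Γ, h0, h1, h2, h3⟩ := h
      rcases sub_top (P := Few t j) (Γ := Γ) (fun A hA => few_subs hA) (fun a n f hf => h3 a n f hf) h2 B hB
        with h4 | h4
      · exact ⟨Γ, h0, h1, h4, h3⟩
      · exact few_succ h4

theorem few_top {t j : ℕ} {A : Fo V} (h : Few t j A) : A.outer.ncard ≤ t := by
  cases j with
  | zero =>
    have h0 : A.outer = ∅ := h
    rw [h0]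
    simp
  | succ j =>
    obtain ⟨Γ, h0, h1, h2, _⟩ := h
    exact (Set.ncard_le_ncard h2 h0).trans h1

theorem few_outer {t l : ℕ} {A : Fo V} (h : Few t l A) : ∀ B ∈ A.subs, B.outer.ncard ≤ t :=
  fun B hB => few_top (few_subs h B hB)

/-- at most `t` gates in all: level `1` -/
theorem few_of_gates {t : ℕ} {A : Fo V} (h : A.gates.ncard ≤ t) : Few t 1 A := by
  refine ⟨A.gates, gates_finite A, h, top_sub_gates, ?_⟩
  intro a n f hf i
  left
  intro C hC
  exact gates_mono (mem_subs_of_mem_mod hf.1 i) (top_sub_gates hC)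

section Guess

variable (m : ℕ) (r : Fm (V ⊕ Bool) → Option Bool) {g : Fo V → Bool}

open scoped Classical in
/-- value of an input under a guess -/
noncomputable def ival (Γ : Set (Fo V)) (g : Fo V → Bool) (G : Fo V → Bool) (B : Fo V) : Bool :=
  if B.outer ⊆ Γ then (r (tr G B)).getD false else g B

/-- uniqueness of the consistent guess -/
theorem uni_top (hg1 : ∀ a n f, g (.mod a n f) = decide ((univ.filter fun i => g (f i) = true).card % m = a % m))
    (hg2 : ∀ A, g A = (r (tr g A)).getD false) (Γ : Set (Fo V)) (G : Fo V → Bool)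
    (H : ∀ a n f, Fo.mod a n f ∈ Γ →
      decide ((univ.filter fun i => ival r Γ g G (f i) = true).card % m = a % m) = G (.mod a n f)) :
    ∀ B : Fo V, ∀ C ∈ B.outer, C ∈ Γ → G C = g C
  | .var v, C, hC, _ => absurd hC (Set.notMem_empty _)
  | .neg A, C, hC, hΓ => uni_top hg1 hg2 Γ G H A C hC hΓ
  | .imp A B, C, hC, hΓ => hC.elim (fun h => uni_top hg1 hg2 Γ G H A C h hΓ)
      (fun h => uni_top hg1 hg2 Γ G H B C h hΓ)
  | .mod a n f, C, hC, hΓ => by
      have hC' : C = .mod a n f := hC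
      subst hC'
      have h2 : ∀ i, ∀ D ∈ (f i).outer, D ∈ Γ → G D = g D := fun i => uni_top hg1 hg2 Γ G H (f i)
      rw [← H _ _ _ hΓ, hg1]
      have h3 : ∀ i, ival r Γ g G (f i) = g (f i) := by
        intro i
        unfold ival
        split_ifs with h
        · rw [hg2 (f i), tr_top fun D hD => h2 i D hD (h hD)]
        · rfl
      simp only [h3]

theorem guess_top
    (hg1 : ∀ a n f, g (.mod a n f) = decide ((univ.filter fun i => g (f i) = true).card % m = a % m))
    (hg2 : ∀ A, g A = (r (tr g A)).getD false) (Γ : Set (Fo V)) (hm : ∀ C ∈ Γ, C.IsMod) (G : Fo V → Bool) :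
    (∀ a n f, Fo.mod a n f ∈ Γ →
      decide ((univ.filter fun i => ival r Γ g G (f i) = true).card % m = a % m) = G (.mod a n f)) ↔
    ∀ C ∈ Γ, G C = g C := by
  constructor
  · intro H C hC
    obtain ⟨a, n, f, rfl⟩ := hm C hC
    exact uni_top m r hg1 hg2 Γ G H (.mod a n f) _ rfl hC
  · intro H a n f h
    rw [H _ h, hg1]
    have h3 : ∀ i, ival r Γ g G (f i) = g (f i) := by
      intro i
      unfold ival
      split_ifs with h
      · rw [hg2 (f i), tr_top fun D hD => H D (h hD)]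
      · rfl
    simp only [h3]

end Guess

/-- the degree of the values of the formulas of level `j` -/
def DL (t m D0 : ℕ) : ℕ → ℕ
  | 0 => D0
  | j + 1 => t * ((m - 1) * DL t m D0 j) + D0

theorem le_DL (t m D0 j : ℕ) : D0 ≤ DL t m D0 j := by
  cases j with
  | zero => exact le_refl _
  | succ j => simp [DL]

section Alg

variable {k Y : Type} [Field k] (𝓐 : Alg k Y)

theorem alg_pow {a : ℕ} {f : Y → k} (hf : f ∈ 𝓐.Deg a) (n : ℕ) : f ^ n ∈ 𝓐.Deg (n * a) := by
  induction n with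
  | zero => simpa using 𝓐.one 0
  | succ n ih =>
    rw [pow_succ, Nat.succ_mul]
    exact 𝓐.mul ih hf

theorem alg_prod {ι : Type} (s : Finset ι) (f : ι → Y → k) (a : ℕ)
    (h : ∀ i ∈ s, f i ∈ 𝓐.Deg a) : (∏ i ∈ s, f i) ∈ 𝓐.Deg (s.card * a) := by
  classical
  induction s using Finset.induction_on with
  | empty => simpa using 𝓐.one 0
  | insert i s hi ih =>
    rw [prod_insert hi, card_insert_of_notMem hi, Nat.succ_mul, add_comm]
    exact 𝓐.mul (h i (mem_insert_self i s)) (ih fun j hj => h j (mem_insert_of_mem hj))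

theorem ind_pos {P : Y → Prop} {y : Y} (h : P y) : (ind P : Y → k) y = 1 := by
  simp [ind, h]

theorem ind_neg {P : Y → Prop} {y : Y} (h : ¬ P y) : (ind P : Y → k) y = 0 := by
  simp [ind, h]

theorem ind_not (P : Y → Prop) : (ind (fun y => ¬ P y) : Y → k) = 1 - ind P := by
  funext y
  by_cases h : P y
  · simp [ind, h]
  · simp [ind, h]

end Alg

theorem DL_le {t m : ℕ} (ht : 1 ≤ t) (hm : 2 ≤ m) (D0 : ℕ) : ∀ l, DL t m D0 l ≤ (t * m) ^ l * D0
  | 0 => by simp [DL]
  | l + 1 => by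
      have ih := DL_le ht hm D0 l
      obtain ⟨m, rfl⟩ : ∃ m', m = m' + 1 := ⟨m - 1, by omega⟩
      have h1 : 1 ≤ (t * (m + 1)) ^ l := Nat.one_le_pow _ _ (by positivity)
      rw [DL, Nat.add_sub_cancel, pow_succ]
      calc t * (m * DL t (m + 1) D0 l) + D0 ≤ t * (m * ((t * (m + 1)) ^ l * D0)) + 1 * 1 * D0 := by
            rw [one_mul, one_mul]
            exact Nat.add_le_add_right (Nat.mul_le_mul_left _ (Nat.mul_le_mul_left _ ih)) _
        _ ≤ t * (m * ((t * (m + 1)) ^ l * D0)) + t * (t * (m + 1)) ^ l * D0 :=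
            Nat.add_le_add_left (Nat.mul_le_mul_right _ (Nat.mul_le_mul ht h1)) _
        _ = (t * (m + 1)) ^ l * (t * (m + 1)) * D0 := by ring

section Level

variable {V Y F : Type} [Field F] {m : ℕ} (𝓐 : Alg F Y)

open scoped Classical in
/-- the guess of a set -/
noncomputable def GS (S : Finset (Fo V)) : Fo V → Bool := fun C => decide (C ∈ S)

/-- the set is consistent at `C` -/
def con (m : ℕ) (r : Fm (V ⊕ Bool) → Option Bool) (Γ : Set (Fo V)) (g : Fo V → Bool) (S : Finset (Fo V))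
    (C : Fo V) : Prop :=
  ∀ a n f, C = Fo.mod a n f →
    decide ((univ.filter fun i => ival r Γ g (GS S) (f i) = true).card % m = a % m) = GS S C

theorem part {r : Y → Fm (V ⊕ Bool) → Option Bool}
    {g : Y → Fo V → Bool} (hg1 : ∀ y a n f, g y (.mod a n f) =
      decide ((univ.filter fun i => g y (f i) = true).card % m = a % m))
    (hg2 : ∀ y A, g y A = (r y (tr (g y) A)).getD false) (Γ : Finset (Fo V)) (hm : ∀ C ∈ Γ, C.IsMod)
    (B : Fo V) (hB : B.outer ⊆ ↑Γ) (b : Option Bool) :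
    (ind (fun y => r y (tr (g y) B) = b) : Y → F) =
      ∑ S ∈ Γ.powerset, (∏ C ∈ Γ, ind (fun y => con m (r y) ↑Γ (g y) S C)) *
        ind (fun y => r y (tr (GS S) B) = b) := by
  classical
  funext y
  rw [Finset.sum_apply]
  have key : ∀ S : Finset (Fo V), (∀ C ∈ Γ, con m (r y) ↑Γ (g y) S C) ↔ ∀ C ∈ Γ, GS S C = g y C := by
    intro S
    have h := guess_top m (r y) (hg1 y) (hg2 y) (↑Γ) (fun C hC => hm C hC) (GS S)
    constructor
    · intro H C hC
      refine h.1 (fun a n f hf => ?_) C hC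
      exact H _ hf a n f rfl
    · intro H C hC a n f hf
      have h2 := h.2 (fun C hC => H C hC)
      subst hf
      exact h2 a n f hC
  rw [Finset.sum_eq_single (Γ.filter fun C => g y C = true)]
  · have h1 : ∀ C ∈ Γ, GS (Γ.filter fun C => g y C = true) C = g y C := by
      intro C hC
      unfold GS
      by_cases hg : g y C = true
      · rw [hg, decide_eq_true_eq, mem_filter]
        exact ⟨hC, hg⟩
      · have h0 : ¬ C ∈ Γ.filter fun C => g y C = true := fun h => hg (mem_filter.1 h).2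
        rw [Bool.not_eq_true] at hg
        rw [hg, decide_eq_false_iff_not]
        exact h0
    have h2 := (key _).2 h1
    have h3 : tr (g y) B = tr (GS (Γ.filter fun C => g y C = true)) B :=
      tr_top fun C hC => (h1 C (hB hC)).symm
    rw [Pi.mul_apply, Finset.prod_apply, Finset.prod_eq_one, one_mul]
    · by_cases h : r y (tr (g y) B) = b
      · rw [ind_pos (P := fun y => r y (tr (g y) B) = b) h,
          ind_pos (P := fun y' => r y' (tr (GS (Γ.filter fun C => g y C = true)) B) = b)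
            (y := y) (by rw [← h3]; exact h)]
      · rw [ind_neg (P := fun y => r y (tr (g y) B) = b) h,
          ind_neg (P := fun y' => r y' (tr (GS (Γ.filter fun C => g y C = true)) B) = b)
            (y := y) (by rw [← h3]; exact h)]
    · intro C hC
      unfold ind
      rw [if_pos (h2 C hC)]
  · intro S hS hne
    rw [Pi.mul_apply, Finset.prod_apply]
    have h1 : ∃ C ∈ Γ, ¬ con m (r y) ↑Γ (g y) S C := by
      by_contra hcon
      push Not at hcon
      apply hne
      have h2 := (key S).1 hcon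
      ext C
      rw [mem_filter]
      constructor
      · intro hC
        have hC' := (mem_powerset.1 hS) hC
        refine ⟨hC', ?_⟩
        rw [← h2 C hC']
        simp [GS, hC]
      · rintro ⟨hC', hC⟩
        rw [← h2 C hC'] at hC
        simpa [GS] using hC
    obtain ⟨C, hC, h2⟩ := h1
    rw [Finset.prod_eq_zero hC, zero_mul]
    unfold ind
    rw [if_neg h2]
  · intro h
    exact absurd (mem_powerset.2 (filter_subset _ _)) h

/-- the gates of `Γ` that are subformulas of the members of `U` -/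
theorem few_gam {t j : ℕ} {U : Set (Fo V)} (hU : ∀ A ∈ U, ∀ B ∈ A.subs, B ∈ U) {B : Fo V} (hB : B ∈ U)
    (h : Few t (j + 1) B) : ∃ Γ : Finset (Fo V), Γ.card ≤ t ∧ B.outer ⊆ ↑Γ ∧ (∀ C ∈ Γ, C.IsMod ∧ C ∈ U) ∧
      ∀ a n f, Fo.mod a n f ∈ Γ → ∀ i, (f i).outer ⊆ ↑Γ ∨ Few t j (f i) := by
  classical
  obtain ⟨Γ0, h0, h1, h2, h3⟩ := h
  obtain ⟨Γ, rfl⟩ : ∃ Γ : Finset (Fo V), Γ0 = ↑Γ := ⟨h0.toFinset, by simp⟩
  rw [Set.ncard_coe_finset] at h1
  refine ⟨Γ.filter fun C => C.IsMod ∧ C ∈ U, (card_filter_le _ _).trans h1, ?_, ?_, ?_⟩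
  · intro C hC
    rw [Finset.mem_coe, mem_filter]
    exact ⟨h2 hC, isMod_of_mem_top hC, hU B hB C (mem_subs_of_mem_top hC)⟩
  · intro C hC
    exact (mem_filter.1 hC).2
  · intro a n f hf i
    obtain ⟨h4, h5, h6⟩ := mem_filter.1 hf
    rcases h3 a n f h4 i with h7 | h7
    · left
      intro C hC
      rw [Finset.mem_coe, mem_filter]
      refine ⟨h7 hC, isMod_of_mem_top hC, ?_⟩
      exact hU _ h6 C (H6.FG.mem_subs_trans (H6.FG.mem_subs_mod.2 (Or.inr ⟨i, H6.FG.self_mem_subs _⟩))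
        (mem_subs_of_mem_top hC))
    · exact Or.inr h7

theorem con_deg (hgate : ∀ {n : ℕ} (u : Fin n → Y → Bool) (a D : ℕ) (b : Bool), (∀ i, ind (fun y => u i y = true) ∈ 𝓐.Deg D) →
      ind (fun y => decide ((univ.filter fun i => u i y = true).card % m = a % m) = b) ∈ 𝓐.Deg ((m - 1) * D))
    {r : Y → Fm (V ⊕ Bool) → Option Bool} {g : Y → Fo V → Bool}
    {U : Set (Fo V)} (hU : ∀ A ∈ U, ∀ B ∈ A.subs, B ∈ U) {t D0 j : ℕ}
    (hdeg : ∀ (G : Fo V → Bool), ∀ B ∈ U, ∀ b, ind (fun y => r y (tr G B) = b) ∈ 𝓐.Deg D0)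
    (ih : ∀ B ∈ U, Few t j B → ind (fun y => g y B = true) ∈ 𝓐.Deg (DL t m D0 j))
    (Γ : Finset (Fo V)) (hm : ∀ C ∈ Γ, C.IsMod ∧ C ∈ U)
    (hΓ : ∀ a n f, Fo.mod a n f ∈ Γ → ∀ i, (f i).outer ⊆ ↑Γ ∨ Few t j (f i)) (S : Finset (Fo V))
    {C : Fo V} (hC : C ∈ Γ) :
    (ind (fun y => con m (r y) ↑Γ (g y) S C) : Y → F) ∈ 𝓐.Deg ((m - 1) * DL t m D0 j) := by
  classical
  obtain ⟨⟨a, n, f, rfl⟩, hCU⟩ := hm C hC
  have h1 : (ind (fun y => con m (r y) ↑Γ (g y) S (Fo.mod a n f)) : Y → F) =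
      ind (fun y => decide ((univ.filter fun i => ival (r y) ↑Γ (g y) (GS S) (f i) = true).card % m =
        a % m) = GS S (Fo.mod a n f)) := by
    congr 1
    funext y
    apply propext
    unfold con
    constructor
    · intro h
      exact h a n f rfl
    · intro h a' n' f' e
      cases e
      exact h
  rw [h1]
  apply hgate
  intro i
  have hfU : f i ∈ U := hU _ hCU _ (H6.FG.mem_subs_mod.2 (Or.inr ⟨i, H6.FG.self_mem_subs _⟩))
  by_cases h : (f i).outer ⊆ (↑Γ : Set (Fo V))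
  · have h2 : (ind (fun y => ival (r y) ↑Γ (g y) (GS S) (f i) = true) : Y → F) =
        ind (fun y => r y (tr (GS S) (f i)) = some true) := by
      congr 1
      funext y
      apply propext
      unfold ival
      rw [if_pos h]
      cases r y (tr (GS S) (f i)) with
      | none => simp
      | some b => simp
    rw [h2]
    exact 𝓐.mono (le_DL t m D0 j) (hdeg _ _ hfU _)
  · have h2 : (ind (fun y => ival (r y) ↑Γ (g y) (GS S) (f i) = true) : Y → F) =
        ind (fun y => g y (f i) = true) := by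
      congr 1
      funext y
      unfold ival
      rw [if_neg h]
    rw [h2]
    exact ih _ hfU ((hΓ a n f hC i).resolve_left h)

theorem ind_g {r : Y → Fm (V ⊕ Bool) → Option Bool} {g : Y → Fo V → Bool}
    (hg2 : ∀ y A, g y A = (r y (tr (g y) A)).getD false) (B : Fo V) :
    (ind (fun y => g y B = true) : Y → F) = ind (fun y => r y (tr (g y) B) = some true) := by
  congr 1
  funext y
  apply propext
  rw [hg2 y B]
  cases r y (tr (g y) B) with
  | none => simp
  | some b => simp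

/-- degrees by levels -/
theorem deg_level (hgate : ∀ {n : ℕ} (u : Fin n → Y → Bool) (a D : ℕ) (b : Bool), (∀ i, ind (fun y => u i y = true) ∈ 𝓐.Deg D) →
      ind (fun y => decide ((univ.filter fun i => u i y = true).card % m = a % m) = b) ∈ 𝓐.Deg ((m - 1) * D))
    {r : Y → Fm (V ⊕ Bool) → Option Bool}
    {g : Y → Fo V → Bool} (hg1 : ∀ y a n f, g y (.mod a n f) =
      decide ((univ.filter fun i => g y (f i) = true).card % m = a % m))
    (hg2 : ∀ y A, g y A = (r y (tr (g y) A)).getD false)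
    {U : Set (Fo V)} (hU : ∀ A ∈ U, ∀ B ∈ A.subs, B ∈ U) (t D0 : ℕ)
    (hdeg : ∀ (G : Fo V → Bool), ∀ B ∈ U, ∀ b, ind (fun y => r y (tr G B) = b) ∈ 𝓐.Deg D0) :
    ∀ j, ∀ B ∈ U, Few t j B → ∀ b, ind (fun y => r y (tr (g y) B) = b) ∈ 𝓐.Deg (DL t m D0 j) := by
  intro j
  induction j with
  | zero =>
    intro B hB h b
    have h0 : B.outer = ∅ := h
    have h1 : (ind (fun y => r y (tr (g y) B) = b) : Y → F) =
        ind (fun y => r y (tr (fun _ => false) B) = b) := by
      congr 1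
      funext y
      rw [tr_top (h := fun _ => false) fun C hC => absurd hC (by rw [h0]; exact Set.notMem_empty _)]
    rw [h1]
    exact hdeg _ B hB b
  | succ j ih =>
    intro B hB h b
    obtain ⟨Γ, h1, h2, h3, h4⟩ := few_gam hU hB h
    rw [part hg1 hg2 Γ (fun C hC => (h3 C hC).1) B h2 b]
    apply Submodule.sum_mem
    intro S _
    have h5 : (∏ C ∈ Γ, ind (fun y => con m (r y) ↑Γ (g y) S C) : Y → F) ∈
        𝓐.Deg (Γ.card * ((m - 1) * DL t m D0 j)) := by
      apply alg_prod 𝓐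
      intro C hC
      exact con_deg 𝓐 hgate hU hdeg (fun B hB hf => by rw [ind_g hg2]; exact ih B hB hf _) Γ h3 h4 S hC
    exact 𝓐.mono (Nat.add_le_add_right (Nat.mul_le_mul_right _ h1) _) (𝓐.mul h5 (hdeg _ B hB b))

theorem z_level (hgate : ∀ {n : ℕ} (u : Fin n → Y → Bool) (a D : ℕ) (b : Bool), (∀ i, ind (fun y => u i y = true) ∈ 𝓐.Deg D) →
      ind (fun y => decide ((univ.filter fun i => u i y = true).card % m = a % m) = b) ∈ 𝓐.Deg ((m - 1) * D))
    {r : Y → Fm (V ⊕ Bool) → Option Bool}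
    {g : Y → Fo V → Bool} (hg1 : ∀ y a n f, g y (.mod a n f) =
      decide ((univ.filter fun i => g y (f i) = true).card % m = a % m))
    (hg2 : ∀ y A, g y A = (r y (tr (g y) A)).getD false)
    {U : Set (Fo V)} (hU : ∀ A ∈ U, ∀ B ∈ A.subs, B ∈ U) (t D0 : ℕ)
    (hdeg : ∀ (G : Fo V → Bool), ∀ B ∈ U, ∀ b, ind (fun y => r y (tr G B) = b) ∈ 𝓐.Deg D0)
    (hz : ∀ (G : Fo V → Bool), ∀ B ∈ U, ind (fun y => r y (tr G B) = none) ∈ 𝓐.Z) {j : ℕ}
    (hK : DL t m D0 j ≤ 𝓐.K) {B : Fo V} (hB : B ∈ U) (h : Few t j B) :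
    ind (fun y => r y (tr (g y) B) = none) ∈ 𝓐.Z := by
  cases j with
  | zero =>
    have h0 : B.outer = ∅ := h
    have h1 : (ind (fun y => r y (tr (g y) B) = none) : Y → F) =
        ind (fun y => r y (tr (fun _ => false) B) = none) := by
      congr 1
      funext y
      rw [tr_top (h := fun _ => false) fun C hC => absurd hC (by rw [h0]; exact Set.notMem_empty _)]
    rw [h1]
    exact hz _ B hB
  | succ j =>
    obtain ⟨Γ, h1, h2, h3, h4⟩ := few_gam hU hB h
    rw [part hg1 hg2 Γ (fun C hC => (h3 C hC).1) B h2 none]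
    apply Submodule.sum_mem
    intro S _
    have h5 : (∏ C ∈ Γ, ind (fun y => con m (r y) ↑Γ (g y) S C) : Y → F) ∈
        𝓐.Deg (Γ.card * ((m - 1) * DL t m D0 j)) := by
      apply alg_prod 𝓐
      intro C hC
      exact con_deg 𝓐 hgate hU hdeg (fun B hB hf => by
        rw [ind_g hg2]
        exact deg_level 𝓐 hgate hg1 hg2 hU t D0 hdeg j B hB hf _) Γ h3 h4 S hC
    refine 𝓐.zmul ?_ h5 (hdeg _ B hB none) (hz _ B hB)
    refine le_trans ?_ hK
    exact Nat.add_le_add_right (Nat.mul_le_mul_right _ h1) _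

end Level


theorem few_deg {p e t l : ℕ} [Fact p.Prime] {A : Fo V} (ht : 1 ≤ t) (hpe : 2 ≤ p ^ e) (h : Few t l A) :
    DegOK (ZMod p) (p ^ e) ((t * p ^ e) ^ l) A := by
  intro Y 𝓐 r g hg1 hg2 D0 hdeg hz hK B hB
  have hgate : ∀ {n : ℕ} (u : Fin n → Y → Bool) (a D : ℕ) (b : Bool),
      (∀ i, ind (fun y => u i y = true) ∈ 𝓐.Deg D) →
      ind (fun y => decide ((univ.filter fun i => u i y = true).card % p ^ e = a % p ^ e) = b) ∈
        𝓐.Deg ((p ^ e - 1) * D) := fun u a D b hu => H30.FG.gate_deg_pow 𝓐 u hu a e b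
  have hU : ∀ C ∈ {C | C ∈ A.subs}, ∀ B ∈ Fo.subs C, B ∈ {C | C ∈ A.subs} := fun C hC B hB =>
    H6.FG.mem_subs_trans hC hB
  have hD := DL_le ht hpe D0 l
  have hB' := few_subs h B hB
  have h1 := fun b => deg_level 𝓐 hgate hg1 hg2 (U := {C | C ∈ A.subs}) hU t D0 hdeg l B hB hB' b
  refine ⟨?_, 𝓐.mono hD (h1 none), z_level 𝓐 hgate hg1 hg2 (U := {C | C ∈ A.subs}) hU t D0 hdeg hz
    (hD.trans hK) hB hB'⟩
  rw [ind_g hg2]
  exact 𝓐.mono hD (h1 _)

end Pool.Agent.H93.FG2
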