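import Pool.Agent.H93.FG.FewD

/-!
# FG: the list of the translations, counted by different subformulas
-/

set_option autoImplicit false

namespace Pool.Agent.H93.FG2

open Finset Pool.Agent.H3.Ac Pool.Agent.H67.FG
open Pool.Agent.H3.Frg hiding ind

variable {V : Type}

/-- all subformulas of the lines -/
def allSubs (π : List (Fo V)) : Set (Fo V) := {B | ∃ A ∈ π, B ∈ A.subs}

theorem allSubs_finite (π : List (Fo V)) : (allSubs π).Finite := by
  have : allSubs π = {B | B ∈ π.flatMap Fo.subs} := by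
    ext B
    simp [allSubs, List.mem_flatMap]
  rw [this]
  exact List.finite_toSet _

theorem allSubs_ncard_le (π : List (Fo V)) : (allSubs π).ncard ≤ size π := by
  classical
  have : allSubs π = ↑(π.flatMap Fo.subs).toFinset := by
    ext B
    simp [allSubs, List.mem_flatMap]
  rw [this, Set.ncard_coe_finset]
  refine (List.toFinset_card_le _).trans ?_
  rw [List.length_flatMap]
  exact le_refl _

theorem outer_finite' (A : Fo V) : A.outer.Finite := (gates_finite A).subset top_sub_gates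

theorem sub_list_card (π : List (Fo V)) (t d : ℕ)
    (hline : ∀ A ∈ π, ∀ B ∈ A.subs, B.dep ≤ d ∧ B.outer.ncard ≤ t) :
    ∃ S : List (Fm (V ⊕ Bool)), SubCl {A | A ∈ S} ∧ (∀ A ∈ π, ∀ B ∈ A.subs, ∀ g, tr g B ∈ S) ∧
      (∀ b, .var (Sum.inr b) ∈ S) ∧ (∀ A ∈ S, ldep 0 A ≤ d) ∧
      S.length ≤ 2 ^ t * (allSubs π).ncard + 2 := by
  classical
  set S : List (Fm (V ⊕ Bool)) := (allSubs_finite π).toFinset.toList.flatMap fun B =>
    (outer_finite' B).toFinset.powerset.toList.map fun T => tr (fun C => decide (C ∈ T)) B with hS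
  have mem : ∀ X, X ∈ S ↔ ∃ A ∈ π, ∃ B ∈ A.subs, ∃ g, X = tr g B := by
    intro X
    rw [hS]
    simp only [List.mem_flatMap, List.mem_map, Finset.mem_toList, Finset.mem_powerset, Set.Finite.mem_toFinset]
    constructor
    · rintro ⟨B, ⟨A, hA, hB⟩, T, -, rfl⟩
      exact ⟨A, hA, B, hB, _, rfl⟩
    · rintro ⟨A, hA, B, hB, g, rfl⟩
      refine ⟨B, ⟨A, hA, hB⟩, (outer_finite' B).toFinset.filter fun C => g C = true,
        Finset.filter_subset _ _, tr_top fun C hC => ?_⟩
      simp [hC]
  have hlen : S.length ≤ 2 ^ t * (allSubs π).ncard := by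
    rw [hS, List.length_flatMap]
    have h1 : ∀ B ∈ (allSubs_finite π).toFinset.toList,
        ((outer_finite' B).toFinset.powerset.toList.map fun T => tr (fun C => decide (C ∈ T)) B).length ≤ 2 ^ t := by
      intro B hB
      rw [List.length_map, Finset.length_toList, Finset.card_powerset]
      refine Nat.pow_le_pow_right (by norm_num) ?_
      rw [Finset.mem_toList, Set.Finite.mem_toFinset] at hB
      obtain ⟨A, hA, hB⟩ := hB
      have := (hline A hA B hB).2
      rwa [Set.ncard_eq_toFinset_card _ (outer_finite' B)] at this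
    have h2 := List.sum_le_card_nsmul ((allSubs_finite π).toFinset.toList.map fun B =>
      ((outer_finite' B).toFinset.powerset.toList.map fun T => tr (fun C => decide (C ∈ T)) B).length) (2 ^ t)
      (fun x hx => by
        obtain ⟨B, hB, rfl⟩ := List.mem_map.1 hx
        exact h1 B hB)
    refine h2.trans ?_
    rw [List.length_map, Finset.length_toList, smul_eq_mul, ← Set.ncard_eq_toFinset_card _ (allSubs_finite π),
      mul_comm]
  refine ⟨.var (Sum.inr true) :: .var (Sum.inr false) :: S, ⟨?_, ?_⟩, ?_, ?_, ?_, ?_⟩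
  · intro X hX
    simp only [Set.mem_ofPred_eq, List.mem_cons, reduceCtorEq, false_or] at hX ⊢
    right; right
    obtain ⟨A, hA, B, hB, g, h⟩ := (mem _).1 hX
    obtain ⟨C, rfl, h2⟩ := H6.FG.tr_eq_neg h.symm
    exact (mem _).2 ⟨A, hA, C, H6.FG.neg_mem_subs hB, g, h2.symm⟩
  · intro X Y hX
    simp only [Set.mem_ofPred_eq, List.mem_cons, reduceCtorEq, false_or] at hX ⊢
    obtain ⟨A, hA, B, hB, g, h⟩ := (mem _).1 hX
    obtain ⟨C, D, rfl, h2, h3⟩ := H6.FG.tr_eq_imp h.symm
    exact ⟨Or.inr (Or.inr ((mem _).2 ⟨A, hA, C, (H6.FG.imp_mem_subs hB).1, g, h2.symm⟩)),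
      Or.inr (Or.inr ((mem _).2 ⟨A, hA, D, (H6.FG.imp_mem_subs hB).2, g, h3.symm⟩))⟩
  · intro A hA B hB g
    exact List.mem_cons_of_mem _ (List.mem_cons_of_mem _ ((mem _).2 ⟨A, hA, B, hB, g, rfl⟩))
  · rintro (_ | _) <;> simp
  · intro X hX
    simp only [List.mem_cons] at hX
    rcases hX with rfl | rfl | hX
    · simp [ldep]
    · simp [ldep]
    · obtain ⟨A, hA, B, hB, g, rfl⟩ := (mem _).1 hX
      rw [H6.FG.ldep_tr]
      exact (hline A hA B hB).1
  · simp only [List.length_cons]
    omega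

end Pool.Agent.H93.FG2
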