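import Pool.Agent.H93.FG.Lev

/-!
# FG by levels: degrees
-/

set_option autoImplicit false

namespace Pool.Agent.H93.FG

open Finset Pool.Agent.H3.Ac Pool.Agent.H67.FG
open Pool.Agent.H3.Frg hiding ind

/-- the degree of the values of the formulas of level `j` -/
def DL (t p D0 : ℕ) : ℕ → ℕ
  | 0 => D0
  | j + 1 => t * ((p - 1) * DL t p D0 j) + D0

theorem le_DL (t p D0 j : ℕ) : D0 ≤ DL t p D0 j := by
  cases j with
  | zero => exact le_refl _
  | succ j => simp [DL]

section Alg

variable {k Y : Type} [Field k] (𝓐 : Alg k Y)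

theorem alg_pow {a : ℕ} {f : Y → k} (hf : f ∈ 𝓐.Deg a) (n : ℕ) : f ^ n ∈ 𝓐.Deg (n * a) := by
  induction n with
  | zero => simpa using 𝓐.one 0
  | succ n ih =>
    rw [pow_succ, Nat.succ_mul]
    exact 𝓐.mul ih hf

theorem alg_prod {ι : Type} (s : Finset ι) (f : ι → Y → k) (a : ℕ)
    (h : ∀ i ∈ s, f i ∈ 𝓐.Deg a) : (∏ i ∈ s, f i) ∈ 𝓐.Deg (s.card * a) := by
  classical
  induction s using Finset.induction_on with
  | empty => simpa using 𝓐.one 0
  | insert i s hi ih =>
    rw [prod_insert hi, card_insert_of_notMem hi, Nat.succ_mul, add_comm]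
    exact 𝓐.mul (h i (mem_insert_self i s)) (ih fun j hj => h j (mem_insert_of_mem hj))

theorem ind_pos {P : Y → Prop} {y : Y} (h : P y) : (ind P : Y → k) y = 1 := by
  simp [ind, h]

theorem ind_neg {P : Y → Prop} {y : Y} (h : ¬ P y) : (ind P : Y → k) y = 0 := by
  simp [ind, h]

theorem ind_not (P : Y → Prop) : (ind (fun y => ¬ P y) : Y → k) = 1 - ind P := by
  funext y
  by_cases h : P y
  · simp [ind, h]
  · simp [ind, h]

end Alg

section Gate

variable {Y : Type} {p : ℕ} [Fact p.Prime] (𝓐 : Alg (ZMod p) Y)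

theorem fermat (s a : ℕ) : (if s % p = a % p then (1 : ZMod p) else 0) = 1 - ((s : ZMod p) - a) ^ (p - 1) := by
  split_ifs with h
  · have h1 : (s : ZMod p) = a := (ZMod.natCast_eq_natCast_iff' s a p).2 h
    have hp : p - 1 ≠ 0 := by
      have := (Fact.out : p.Prime).two_le
      omega
    rw [h1, sub_self, zero_pow hp, sub_zero]
  · have h1 : (s : ZMod p) - a ≠ 0 := by
      intro h2
      exact h ((ZMod.natCast_eq_natCast_iff' s a p).1 (sub_eq_zero.1 h2))
    rw [ZMod.pow_card_sub_one_eq_one h1, sub_self]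

theorem gate_true {n : ℕ} (u : Fin n → Y → Bool) (a D : ℕ) (hu : ∀ i, ind (fun y => u i y = true) ∈ 𝓐.Deg D) :
    ind (fun y => decide ((univ.filter fun i => u i y = true).card % p = a % p) = true) ∈
      𝓐.Deg ((p - 1) * D) := by
  have h1 : (ind (fun y => decide ((univ.filter fun i => u i y = true).card % p = a % p) = true) : Y → ZMod p) =
      1 - ((∑ i, ind (fun y => u i y = true)) - (a : ZMod p) • (1 : Y → ZMod p)) ^ (p - 1) := by
    funext y
    have h2 : (∑ i, (ind (fun y => u i y = true) : Y → ZMod p)) y =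
        ((univ.filter fun i => u i y = true).card : ZMod p) := by
      rw [Finset.sum_apply]
      have h3 : ∀ i, (ind (fun y => u i y = true) : Y → ZMod p) y = if u i y = true then 1 else 0 := by
        intro i
        by_cases h : u i y = true
        · rw [ind_pos (P := fun y => u i y = true) h, if_pos h]
        · rw [ind_neg (P := fun y => u i y = true) h, if_neg h]
      rw [Finset.sum_congr rfl fun i _ => h3 i, Finset.sum_boole]
    simp only [Pi.sub_apply, Pi.one_apply, Pi.pow_apply, Pi.smul_apply, smul_eq_mul, mul_one]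
    rw [h2, ← fermat]
    unfold ind
    by_cases h : (univ.filter fun i => u i y = true).card % p = a % p
    · simp [h]
    · simp [h]
  rw [h1]
  refine Submodule.sub_mem _ (𝓐.one _) (alg_pow 𝓐 ?_ _)
  exact Submodule.sub_mem _ (Submodule.sum_mem _ fun i _ => hu i) (Submodule.smul_mem _ _ (𝓐.one _))

theorem gate_deg {n : ℕ} (u : Fin n → Y → Bool) (a D : ℕ) (b : Bool)
    (hu : ∀ i, ind (fun y => u i y = true) ∈ 𝓐.Deg D) :
    ind (fun y => decide ((univ.filter fun i => u i y = true).card % p = a % p) = b) ∈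
      𝓐.Deg ((p - 1) * D) := by
  cases b with
  | true => exact gate_true 𝓐 u a D hu
  | false =>
    have h1 : (ind (fun y => decide ((univ.filter fun i => u i y = true).card % p = a % p) = false) :
        Y → ZMod p) = 1 - ind (fun y => decide ((univ.filter fun i => u i y = true).card % p = a % p) = true) := by
      rw [← ind_not]
      congr 1
      funext y
      simp
    rw [h1]
    exact Submodule.sub_mem _ (𝓐.one _) (gate_true 𝓐 u a D hu)

end Gate

section Level

variable {V Y : Type} {p : ℕ} [Fact p.Prime] (𝓐 : Alg (ZMod p) Y)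

open scoped Classical in
/-- the guess of a set -/
noncomputable def GS (S : Finset (Fo V)) : Fo V → Bool := fun C => decide (C ∈ S)

/-- the set is consistent at `C` -/
def con (p : ℕ) (r : Fm (V ⊕ Bool) → Option Bool) (Γ : Set (Fo V)) (g : Fo V → Bool) (S : Finset (Fo V))
    (C : Fo V) : Prop :=
  ∀ a n f, C = Fo.mod a n f →
    decide ((univ.filter fun i => ival r Γ g (GS S) (f i) = true).card % p = a % p) = GS S C

theorem part {r : Y → Fm (V ⊕ Bool) → Option Bool}
    {g : Y → Fo V → Bool} (hg1 : ∀ y a n f, g y (.mod a n f) =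
      decide ((univ.filter fun i => g y (f i) = true).card % p = a % p))
    (hg2 : ∀ y A, g y A = (r y (tr (g y) A)).getD false) (Γ : Finset (Fo V)) (hm : ∀ C ∈ Γ, C.IsMod)
    (B : Fo V) (hB : top B ⊆ ↑Γ) (b : Option Bool) :
    (ind (fun y => r y (tr (g y) B) = b) : Y → ZMod p) =
      ∑ S ∈ Γ.powerset, (∏ C ∈ Γ, ind (fun y => con p (r y) ↑Γ (g y) S C)) *
        ind (fun y => r y (tr (GS S) B) = b) := by
  classical
  funext y
  rw [Finset.sum_apply]
  have key : ∀ S : Finset (Fo V), (∀ C ∈ Γ, con p (r y) ↑Γ (g y) S C) ↔ ∀ C ∈ Γ, GS S C = g y C := by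
    intro S
    have h := guess_top p (r y) (hg1 y) (hg2 y) (↑Γ) (fun C hC => hm C hC) (GS S)
    constructor
    · intro H C hC
      refine h.1 (fun a n f hf => ?_) C hC
      exact H _ hf a n f rfl
    · intro H C hC a n f hf
      have h2 := h.2 (fun C hC => H C hC)
      subst hf
      exact h2 a n f hC
  rw [Finset.sum_eq_single (Γ.filter fun C => g y C = true)]
  · have h1 : ∀ C ∈ Γ, GS (Γ.filter fun C => g y C = true) C = g y C := by
      intro C hC
      unfold GS
      by_cases hg : g y C = true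
      · rw [hg, decide_eq_true_eq, mem_filter]
        exact ⟨hC, hg⟩
      · have h0 : ¬ C ∈ Γ.filter fun C => g y C = true := fun h => hg (mem_filter.1 h).2
        rw [Bool.not_eq_true] at hg
        rw [hg, decide_eq_false_iff_not]
        exact h0
    have h2 := (key _).2 h1
    have h3 : tr (g y) B = tr (GS (Γ.filter fun C => g y C = true)) B :=
      tr_top fun C hC => (h1 C (hB hC)).symm
    rw [Pi.mul_apply, Finset.prod_apply, Finset.prod_eq_one, one_mul]
    · by_cases h : r y (tr (g y) B) = b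
      · rw [ind_pos (P := fun y => r y (tr (g y) B) = b) h,
          ind_pos (P := fun y' => r y' (tr (GS (Γ.filter fun C => g y C = true)) B) = b)
            (y := y) (by rw [← h3]; exact h)]
      · rw [ind_neg (P := fun y => r y (tr (g y) B) = b) h,
          ind_neg (P := fun y' => r y' (tr (GS (Γ.filter fun C => g y C = true)) B) = b)
            (y := y) (by rw [← h3]; exact h)]
    · intro C hC
      unfold ind
      rw [if_pos (h2 C hC)]
  · intro S hS hne
    rw [Pi.mul_apply, Finset.prod_apply]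
    have h1 : ∃ C ∈ Γ, ¬ con p (r y) ↑Γ (g y) S C := by
      by_contra hcon
      push Not at hcon
      apply hne
      have h2 := (key S).1 hcon
      ext C
      rw [mem_filter]
      constructor
      · intro hC
        have hC' := (mem_powerset.1 hS) hC
        refine ⟨hC', ?_⟩
        rw [← h2 C hC']
        simp [GS, hC]
      · rintro ⟨hC', hC⟩
        rw [← h2 C hC'] at hC
        simpa [GS] using hC
    obtain ⟨C, hC, h2⟩ := h1
    rw [Finset.prod_eq_zero hC, zero_mul]
    unfold ind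
    rw [if_neg h2]
  · intro h
    exact absurd (mem_powerset.2 (filter_subset _ _)) h

/-- the gates of `Γ` that are subformulas of the members of `U` -/
theorem few_gam {t j : ℕ} {U : Set (Fo V)} (hU : ∀ A ∈ U, ∀ B ∈ A.subs, B ∈ U) {B : Fo V} (hB : B ∈ U)
    (h : Few t (j + 1) B) : ∃ Γ : Finset (Fo V), Γ.card ≤ t ∧ top B ⊆ ↑Γ ∧ (∀ C ∈ Γ, C.IsMod ∧ C ∈ U) ∧
      ∀ a n f, Fo.mod a n f ∈ Γ → ∀ i, top (f i) ⊆ ↑Γ ∨ Few t j (f i) := by
  classical
  obtain ⟨Γ, h1, h2, h3⟩ := h
  refine ⟨Γ.filter fun C => C.IsMod ∧ C ∈ U, (card_filter_le _ _).trans h1, ?_, ?_, ?_⟩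
  · intro C hC
    rw [Finset.mem_coe, mem_filter]
    exact ⟨h2 hC, isMod_of_mem_top hC, hU B hB C (mem_subs_of_mem_top hC)⟩
  · intro C hC
    exact (mem_filter.1 hC).2
  · intro a n f hf i
    obtain ⟨h4, h5, h6⟩ := mem_filter.1 hf
    rcases h3 a n f h4 i with h7 | h7
    · left
      intro C hC
      rw [Finset.mem_coe, mem_filter]
      refine ⟨h7 hC, isMod_of_mem_top hC, ?_⟩
      exact hU _ h6 C (H6.FG.mem_subs_trans (H6.FG.mem_subs_mod.2 (Or.inr ⟨i, H6.FG.self_mem_subs _⟩))
        (mem_subs_of_mem_top hC))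
    · exact Or.inr h7

theorem con_deg {r : Y → Fm (V ⊕ Bool) → Option Bool} {g : Y → Fo V → Bool}
    {U : Set (Fo V)} (hU : ∀ A ∈ U, ∀ B ∈ A.subs, B ∈ U) {t D0 j : ℕ}
    (hdeg : ∀ (G : Fo V → Bool), ∀ B ∈ U, ∀ b, ind (fun y => r y (tr G B) = b) ∈ 𝓐.Deg D0)
    (ih : ∀ B ∈ U, Few t j B → ind (fun y => g y B = true) ∈ 𝓐.Deg (DL t p D0 j))
    (Γ : Finset (Fo V)) (hm : ∀ C ∈ Γ, C.IsMod ∧ C ∈ U)
    (hΓ : ∀ a n f, Fo.mod a n f ∈ Γ → ∀ i, top (f i) ⊆ ↑Γ ∨ Few t j (f i)) (S : Finset (Fo V))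
    {C : Fo V} (hC : C ∈ Γ) :
    (ind (fun y => con p (r y) ↑Γ (g y) S C) : Y → ZMod p) ∈ 𝓐.Deg ((p - 1) * DL t p D0 j) := by
  classical
  obtain ⟨⟨a, n, f, rfl⟩, hCU⟩ := hm C hC
  have h1 : (ind (fun y => con p (r y) ↑Γ (g y) S (Fo.mod a n f)) : Y → ZMod p) =
      ind (fun y => decide ((univ.filter fun i => ival (r y) ↑Γ (g y) (GS S) (f i) = true).card % p =
        a % p) = GS S (Fo.mod a n f)) := by
    congr 1
    funext y
    apply propext
    unfold con
    constructor
    · intro h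
      exact h a n f rfl
    · intro h a' n' f' e
      cases e
      exact h
  rw [h1]
  apply gate_deg 𝓐
  intro i
  have hfU : f i ∈ U := hU _ hCU _ (H6.FG.mem_subs_mod.2 (Or.inr ⟨i, H6.FG.self_mem_subs _⟩))
  by_cases h : top (f i) ⊆ (↑Γ : Set (Fo V))
  · have h2 : (ind (fun y => ival (r y) ↑Γ (g y) (GS S) (f i) = true) : Y → ZMod p) =
        ind (fun y => r y (tr (GS S) (f i)) = some true) := by
      congr 1
      funext y
      apply propext
      unfold ival
      rw [if_pos h]
      cases r y (tr (GS S) (f i)) with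
      | none => simp
      | some b => simp
    rw [h2]
    exact 𝓐.mono (le_DL t p D0 j) (hdeg _ _ hfU _)
  · have h2 : (ind (fun y => ival (r y) ↑Γ (g y) (GS S) (f i) = true) : Y → ZMod p) =
        ind (fun y => g y (f i) = true) := by
      congr 1
      funext y
      unfold ival
      rw [if_neg h]
    rw [h2]
    exact ih _ hfU ((hΓ a n f hC i).resolve_left h)

theorem ind_g {r : Y → Fm (V ⊕ Bool) → Option Bool} {g : Y → Fo V → Bool}
    (hg2 : ∀ y A, g y A = (r y (tr (g y) A)).getD false) (B : Fo V) :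
    (ind (fun y => g y B = true) : Y → ZMod p) = ind (fun y => r y (tr (g y) B) = some true) := by
  congr 1
  funext y
  apply propext
  rw [hg2 y B]
  cases r y (tr (g y) B) with
  | none => simp
  | some b => simp

/-- degrees by levels -/
theorem deg_level {r : Y → Fm (V ⊕ Bool) → Option Bool}
    {g : Y → Fo V → Bool} (hg1 : ∀ y a n f, g y (.mod a n f) =
      decide ((univ.filter fun i => g y (f i) = true).card % p = a % p))
    (hg2 : ∀ y A, g y A = (r y (tr (g y) A)).getD false)
    {U : Set (Fo V)} (hU : ∀ A ∈ U, ∀ B ∈ A.subs, B ∈ U) (t D0 : ℕ)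
    (hdeg : ∀ (G : Fo V → Bool), ∀ B ∈ U, ∀ b, ind (fun y => r y (tr G B) = b) ∈ 𝓐.Deg D0) :
    ∀ j, ∀ B ∈ U, Few t j B → ∀ b, ind (fun y => r y (tr (g y) B) = b) ∈ 𝓐.Deg (DL t p D0 j) := by
  intro j
  induction j with
  | zero =>
    intro B hB h b
    have h0 : top B = ∅ := h
    have h1 : (ind (fun y => r y (tr (g y) B) = b) : Y → ZMod p) =
        ind (fun y => r y (tr (fun _ => false) B) = b) := by
      congr 1
      funext y
      rw [tr_top (h := fun _ => false) fun C hC => absurd hC (by rw [h0]; exact Set.notMem_empty _)]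
    rw [h1]
    exact hdeg _ B hB b
  | succ j ih =>
    intro B hB h b
    obtain ⟨Γ, h1, h2, h3, h4⟩ := few_gam hU hB h
    rw [part hg1 hg2 Γ (fun C hC => (h3 C hC).1) B h2 b]
    apply Submodule.sum_mem
    intro S _
    have h5 : (∏ C ∈ Γ, ind (fun y => con p (r y) ↑Γ (g y) S C) : Y → ZMod p) ∈
        𝓐.Deg (Γ.card * ((p - 1) * DL t p D0 j)) := by
      apply alg_prod 𝓐
      intro C hC
      exact con_deg 𝓐 hU hdeg (fun B hB hf => by rw [ind_g hg2]; exact ih B hB hf _) Γ h3 h4 S hC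
    exact 𝓐.mono (Nat.add_le_add_right (Nat.mul_le_mul_right _ h1) _) (𝓐.mul h5 (hdeg _ B hB b))

theorem z_level {r : Y → Fm (V ⊕ Bool) → Option Bool}
    {g : Y → Fo V → Bool} (hg1 : ∀ y a n f, g y (.mod a n f) =
      decide ((univ.filter fun i => g y (f i) = true).card % p = a % p))
    (hg2 : ∀ y A, g y A = (r y (tr (g y) A)).getD false)
    {U : Set (Fo V)} (hU : ∀ A ∈ U, ∀ B ∈ A.subs, B ∈ U) (t D0 : ℕ)
    (hdeg : ∀ (G : Fo V → Bool), ∀ B ∈ U, ∀ b, ind (fun y => r y (tr G B) = b) ∈ 𝓐.Deg D0)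
    (hz : ∀ (G : Fo V → Bool), ∀ B ∈ U, ind (fun y => r y (tr G B) = none) ∈ 𝓐.Z) {j : ℕ}
    (hK : DL t p D0 j ≤ 𝓐.K) {B : Fo V} (hB : B ∈ U) (h : Few t j B) :
    ind (fun y => r y (tr (g y) B) = none) ∈ 𝓐.Z := by
  cases j with
  | zero =>
    have h0 : top B = ∅ := h
    have h1 : (ind (fun y => r y (tr (g y) B) = none) : Y → ZMod p) =
        ind (fun y => r y (tr (fun _ => false) B) = none) := by
      congr 1
      funext y
      rw [tr_top (h := fun _ => false) fun C hC => absurd hC (by rw [h0]; exact Set.notMem_empty _)]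
    rw [h1]
    exact hz _ B hB
  | succ j =>
    obtain ⟨Γ, h1, h2, h3, h4⟩ := few_gam hU hB h
    rw [part hg1 hg2 Γ (fun C hC => (h3 C hC).1) B h2 none]
    apply Submodule.sum_mem
    intro S _
    have h5 : (∏ C ∈ Γ, ind (fun y => con p (r y) ↑Γ (g y) S C) : Y → ZMod p) ∈
        𝓐.Deg (Γ.card * ((p - 1) * DL t p D0 j)) := by
      apply alg_prod 𝓐
      intro C hC
      exact con_deg 𝓐 hU hdeg (fun B hB hf => by
        rw [ind_g hg2]
        exact deg_level 𝓐 hg1 hg2 hU t D0 hdeg j B hB hf _) Γ h3 h4 S hC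
    refine 𝓐.zmul ?_ h5 (hdeg _ B hB none) (hz _ B hB)
    refine le_trans ?_ hK
    exact Nat.add_le_add_right (Nat.mul_le_mul_right _ h1) _

end Level

end Pool.Agent.H93.FG
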