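import Pool.Agent.H67.FG.Wld
import Pool.Agent.H67.FG.Gue
import Pool.Agent.H6.FG.Sub

/-!
# FG by levels: outermost gates, levels, the guess over a set of gates
-/

set_option autoImplicit false

namespace Pool.Agent.H93.FG

open Finset Pool.Agent.H3.Frg Pool.Agent.H3.Frg2 Pool.Agent.H3.Ac Pool.Agent.H67.FG

variable {V : Type}

/-- the outermost MOD gates of a formula -/
def top : Fo V → Set (Fo V)
  | .var _ => ∅
  | .neg A => top A
  | .imp A B => top A ∪ top B
  | .mod a n f => {.mod a n f}

/-- Level `0`: no gates. Level `j + 1`: there is a set of at most `t` formulas which contains all outermost gates of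
the formula and, for each of its gates and each input of that gate, either all outermost gates of the input, or the
input has level `j`. -/
def Few (t : ℕ) : ℕ → Fo V → Prop
  | 0, A => top A = ∅
  | j + 1, A => ∃ Γ : Finset (Fo V), Γ.card ≤ t ∧ top A ⊆ ↑Γ ∧
      ∀ a n f, Fo.mod a n f ∈ Γ → ∀ i, top (f i) ⊆ ↑Γ ∨ Few t j (f i)

theorem isMod_of_mem_top : ∀ {A C : Fo V}, C ∈ top A → C.IsMod
  | .var _, _, h => absurd h (Set.notMem_empty _)
  | .neg A, _, h => isMod_of_mem_top (A := A) h
  | .imp A B, _, h => h.elim (isMod_of_mem_top (A := A)) (isMod_of_mem_top (A := B))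
  | .mod a n f, _, h => ⟨a, n, f, h⟩

theorem mem_subs_of_mem_top : ∀ {A C : Fo V}, C ∈ top A → C ∈ A.subs
  | .var _, _, h => absurd h (Set.notMem_empty _)
  | .neg A, _, h => by
      rw [Fo.subs]
      exact List.mem_cons_of_mem _ (mem_subs_of_mem_top (A := A) h)
  | .imp A B, _, h => by
      rw [Fo.subs]
      rcases h with h | h
      · exact List.mem_cons_of_mem _ (List.mem_append_left _ (mem_subs_of_mem_top (A := A) h))
      · exact List.mem_cons_of_mem _ (List.mem_append_right _ (mem_subs_of_mem_top (A := B) h))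
  | .mod a n f, C, h => by
      have : C = .mod a n f := h
      rw [this]
      exact self_mem_subs _

theorem top_sub_gates {A : Fo V} : top A ⊆ A.gates := fun _ h =>
  ⟨mem_subs_of_mem_top h, isMod_of_mem_top h⟩

theorem top_finite (A : Fo V) : (top A).Finite := (gates_finite A).subset top_sub_gates

/-- `tr g A` depends only on the outermost gates -/
theorem tr_top {g h : Fo V → Bool} : ∀ {A : Fo V}, (∀ C ∈ top A, g C = h C) → tr g A = tr h A
  | .var v, _ => by rw [tr, tr]
  | .neg A, H => by rw [tr, tr, tr_top (A := A) H]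
  | .imp A B, H => by
      rw [tr, tr, tr_top (A := A) fun C hC => H C (Or.inl hC), tr_top (A := B) fun C hC => H C (Or.inr hC)]
  | .mod a n f, H => by rw [tr, tr, H _ rfl]

theorem few_succ {t : ℕ} : ∀ {j : ℕ} {A : Fo V}, Few t j A → Few t (j + 1) A
  | 0, A, h => ⟨∅, by simp, by
      have h' : top A = ∅ := h
      rw [h']
      exact Set.empty_subset _, fun a n f hf => absurd hf (by simp)⟩
  | j + 1, A, h => by
      obtain ⟨Γ, h1, h2, h3⟩ := h
      exact ⟨Γ, h1, h2, fun a n f hf i => (h3 a n f hf i).imp id fun h4 => few_succ h4⟩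

/-- subformulas of a formula whose outermost gates are in `Γ` -/
theorem sub_top {P : Fo V → Prop} {Γ : Set (Fo V)}
    (hP : ∀ A, P A → ∀ B ∈ A.subs, P B)
    (hΓ : ∀ a n f, Fo.mod a n f ∈ Γ → ∀ i, top (f i) ⊆ Γ ∨ P (f i)) :
    ∀ {A : Fo V}, top A ⊆ Γ → ∀ B ∈ A.subs, top B ⊆ Γ ∨ P B
  | .var v, h, B, hB => by
      rw [Fo.subs, List.mem_singleton] at hB
      subst hB
      exact Or.inl h
  | .neg A, h, B, hB => by
      rw [Fo.subs, List.mem_cons] at hB
      rcases hB with rfl | hB
      · exact Or.inl h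
      · exact sub_top hP hΓ (A := A) h B hB
  | .imp A A', h, B, hB => by
      rw [Fo.subs, List.mem_cons, List.mem_append] at hB
      rcases hB with rfl | hB | hB
      · exact Or.inl h
      · exact sub_top hP hΓ (A := A) (Set.subset_union_left.trans h) B hB
      · exact sub_top hP hΓ (A := A') (Set.subset_union_right.trans h) B hB
  | .mod a n f, h, B, hB => by
      rcases H6.FG.mem_subs_mod.1 hB with rfl | ⟨i, hB⟩
      · exact Or.inl h
      · rcases hΓ a n f (h rfl) i with h1 | h1
        · exact sub_top hP hΓ (A := f i) h1 B hB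
        · exact Or.inr (hP _ h1 B hB)

theorem few_subs {t : ℕ} : ∀ {j : ℕ} {A : Fo V}, Few t j A → ∀ B ∈ A.subs, Few t j B
  | 0, A, h, B, hB => by
      have h' : top A ⊆ (∅ : Set (Fo V)) := by
        have h0 : top A = ∅ := h
        rw [h0]
      rcases sub_top (P := fun _ => False) (Γ := ∅) (fun _ h => h.elim) (fun a n f hf => hf.elim) h' B hB
        with h1 | h1
      · exact Set.subset_empty_iff.1 h1
      · exact h1.elim
  | j + 1, A, h, B, hB => by
      obtain ⟨Γ, h1, h2, h3⟩ := h
      rcases sub_top (P := Few t j) (Γ := ↑Γ) (fun A hA => few_subs hA) (fun a n f hf => h3 a n f hf) h2 B hB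
        with h4 | h4
      · exact ⟨Γ, h1, h4, h3⟩
      · exact few_succ h4

theorem few_top {t j : ℕ} {A : Fo V} (h : Few t j A) : (top A).ncard ≤ t := by
  cases j with
  | zero =>
    have h0 : top A = ∅ := h
    rw [h0]
    simp
  | succ j =>
    obtain ⟨Γ, h1, h2, _⟩ := h
    exact (Set.ncard_le_ncard h2 (Finset.finite_toSet Γ)).trans (by rwa [Set.ncard_coe_finset])

/-- at most `t` gates in all: level `1` -/
theorem few_of_gates {t : ℕ} {A : Fo V} (h : A.gates.ncard ≤ t) : Few t 1 A := by
  refine ⟨(gates_finite A).toFinset, ?_, ?_, ?_⟩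
  · rwa [← Set.ncard_eq_toFinset_card _ (gates_finite A)]
  · intro C hC
    simpa using top_sub_gates hC
  · intro a n f hf i
    left
    have hf' : Fo.mod a n f ∈ A.gates := by simpa using hf
    intro C hC
    have : C ∈ A.gates := gates_mono (mem_subs_of_mem_mod hf'.1 i) (top_sub_gates hC)
    simpa using this

section Guess

variable (p : ℕ) (r : Fm (V ⊕ Bool) → Option Bool) {g : Fo V → Bool}

open scoped Classical in
/-- value of an input under a guess -/
noncomputable def ival (Γ : Set (Fo V)) (g : Fo V → Bool) (G : Fo V → Bool) (B : Fo V) : Bool :=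
  if top B ⊆ Γ then (r (tr G B)).getD false else g B

/-- uniqueness of the consistent guess -/
theorem uni_top (hg1 : ∀ a n f, g (.mod a n f) = decide ((univ.filter fun i => g (f i) = true).card % p = a % p))
    (hg2 : ∀ A, g A = (r (tr g A)).getD false) (Γ : Set (Fo V)) (G : Fo V → Bool)
    (H : ∀ a n f, Fo.mod a n f ∈ Γ →
      decide ((univ.filter fun i => ival r Γ g G (f i) = true).card % p = a % p) = G (.mod a n f)) :
    ∀ B : Fo V, ∀ C ∈ top B, C ∈ Γ → G C = g C
  | .var v, C, hC, _ => absurd hC (Set.notMem_empty _)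
  | .neg A, C, hC, hΓ => uni_top hg1 hg2 Γ G H A C hC hΓ
  | .imp A B, C, hC, hΓ => hC.elim (fun h => uni_top hg1 hg2 Γ G H A C h hΓ)
      (fun h => uni_top hg1 hg2 Γ G H B C h hΓ)
  | .mod a n f, C, hC, hΓ => by
      have hC' : C = .mod a n f := hC
      subst hC'
      have h2 : ∀ i, ∀ D ∈ top (f i), D ∈ Γ → G D = g D := fun i => uni_top hg1 hg2 Γ G H (f i)
      rw [← H _ _ _ hΓ, hg1]
      have h3 : ∀ i, ival r Γ g G (f i) = g (f i) := by
        intro i
        unfold ival
        split_ifs with h
        · rw [hg2 (f i), tr_top fun D hD => h2 i D hD (h hD)]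
        · rfl
      simp only [h3]

theorem guess_top
    (hg1 : ∀ a n f, g (.mod a n f) = decide ((univ.filter fun i => g (f i) = true).card % p = a % p))
    (hg2 : ∀ A, g A = (r (tr g A)).getD false) (Γ : Set (Fo V)) (hm : ∀ C ∈ Γ, C.IsMod) (G : Fo V → Bool) :
    (∀ a n f, Fo.mod a n f ∈ Γ →
      decide ((univ.filter fun i => ival r Γ g G (f i) = true).card % p = a % p) = G (.mod a n f)) ↔
    ∀ C ∈ Γ, G C = g C := by
  constructor
  · intro H C hC
    obtain ⟨a, n, f, rfl⟩ := hm C hC
    exact uni_top p r hg1 hg2 Γ G H (.mod a n f) _ rfl hC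
  · intro H a n f h
    rw [H _ h, hg1]
    have h3 : ∀ i, ival r Γ g G (f i) = g (f i) := by
      intro i
      unfold ival
      split_ifs with h
      · rw [hg2 (f i), tr_top fun D hD => H D (h hD)]
      · rfl
    simp only [h3]

end Guess

end Pool.Agent.H93.FG
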